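import Mathlib

/-!
Definitions for sections of the fundamental group of a curve, in terms of its function field.

`k` is a field, `K` an extension of `k` (the function field of the curve) and `Ω` an algebraic
closure of `K`.
-/

namespace Pool.Agent.Helper36

open Polynomial

/-- `v` is a nontrivial discrete valuation of the extension `L` of `k` which is trivial on `k`.
(For `L` a function field of one variable over `k` these are, up to scaling the value group, the
valuations attached to the closed points of the smooth projective model of `L`.) -/
def IsPlace (k : Type*) {L : Type*} [Field k] [Field L] [Algebra k L]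
    (v : Valuation L (WithZero (Multiplicative ℤ))) : Prop :=
  (∀ c : k, c ≠ 0 → v (algebraMap k L c) = 1) ∧ ∃ x : L, x ≠ 0 ∧ v x ≠ 1

/-- `L / K` is unramified at all discrete valuations trivial on `k`: the value group does not
grow.  (In characteristic zero, this is the usual notion, since the residue fields contain `k`.) -/
def UnramifiedEverywhere (k K L : Type*) [Field k] [Field K] [Field L] [Algebra k L]
    [Algebra K L] : Prop :=
  ∀ v : Valuation L (WithZero (Multiplicative ℤ)), IsPlace k v →
    ∀ l : L, ∃ x : K, v (algebraMap K L x) = v l

variable (k K Ω : Type*) [Field k] [Field K] [Field Ω] [Algebra k K] [Algebra K Ω] [Algebra k Ω]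
  [IsScalarTower k K Ω]

/-- The function field of the universal pro-etale cover: the compositum, inside `Ω`, of all finite
extensions of `K` which are unramified at all places over `k`. -/
noncomputable def univCover : IntermediateField K Ω :=
  ⨆ L : {L : IntermediateField K Ω // FiniteDimensional K L ∧ UnramifiedEverywhere k K L},
    (L : IntermediateField K Ω)

/-- A section of the restriction map `Gal(univCover / K) → Gal(kbar / k)`, where `kbar` is the
algebraic closure of `k` in `Ω` (which is contained in `univCover`, see the lemma
`algebraic_mem_univCover`): a continuous homomorphism `Gal(kbar / k) → Gal(univCover / K)`, for the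
Krull topologies, such that the image of `σ` acts as `σ` on the elements of `univCover` which are
algebraic over `k`. -/
structure SectionData where
  /-- the homomorphism -/
  hom : (algebraicClosure k Ω ≃ₐ[k] algebraicClosure k Ω) →* (univCover k K Ω ≃ₐ[K] univCover k K Ω)
  /-- it is continuous for the Krull topologies -/
  cont : Continuous hom
  /-- it is a section of the restriction map -/
  isSection : ∀ (σ : algebraicClosure k Ω ≃ₐ[k] algebraicClosure k Ω) (x : univCover k K Ω)
    (hx : (x : Ω) ∈ algebraicClosure k Ω), (hom σ x : Ω) = (σ ⟨(x : Ω), hx⟩ : Ω)

end Pool.Agent.Helper36
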