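import Mathlib
import Pool.Agent.Helper36.SecDefs

/-!
Short names for the fields and groups used in the statements about sections.
-/

namespace Pool.Agent.Helper36

open IntermediateField Polynomial

section Names

variable (k K Ω : Type*) [Field k] [Field K] [Field Ω] [Algebra k K] [Algebra K Ω] [Algebra k Ω]
  [IsScalarTower k K Ω]

/-- The algebraic closure of `k` in `Ω`, as a type. -/
def ConstClosure (k Ω : Type*) [Field k] [Field Ω] [Algebra k Ω] : Type _ := algebraicClosure k Ω

noncomputable instance fieldConst (k Ω : Type*) [Field k] [Field Ω] [Algebra k Ω] :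
    Field (ConstClosure k Ω) := (algebraicClosure k Ω).toField

noncomputable instance algebraConst (k Ω : Type*) [Field k] [Field Ω] [Algebra k Ω] :
    Algebra k (ConstClosure k Ω) := (algebraicClosure k Ω).algebra'

/-- the inclusion in `Ω` -/
def ConstClosure.val {k Ω : Type*} [Field k] [Field Ω] [Algebra k Ω] (x : ConstClosure k Ω) : Ω :=
  Subtype.val x

/-- The field `univCover`, as a type. -/
def UnivField : Type _ := univCover k K Ω

noncomputable instance fieldUniv : Field (UnivField k K Ω) := (univCover k K Ω).toField

noncomputable instance algebraUniv : Algebra K (UnivField k K Ω) := (univCover k K Ω).algebra'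

variable {k K Ω} in
/-- the inclusion in `Ω` -/
def UnivField.val (x : UnivField k K Ω) : Ω := Subtype.val x

/-- The absolute Galois group of `k`, acting on the algebraic closure of `k` in `Ω`. -/
abbrev AbsGal (k Ω : Type*) [Field k] [Field Ω] [Algebra k Ω] : Type _ :=
  ConstClosure k Ω ≃ₐ[k] ConstClosure k Ω

/-- The Galois group of `univCover` over `K`; the etale fundamental group of `X` if `K = k(X)`. -/
abbrev PiOne : Type _ := UnivField k K Ω ≃ₐ[K] UnivField k K Ω

variable {k K Ω} in
/-- The homomorphism `s` from the absolute Galois group of `k` to `PiOne` is a section of the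
restriction map: the image of `σ` acts as `σ` on the elements of `univCover` which are
algebraic over `k`. -/
def IsLift (s : AbsGal k Ω →* PiOne k K Ω) : Prop :=
  ∀ (σ : AbsGal k Ω) (x : UnivField k K Ω) (a : ConstClosure k Ω),
    x.val = a.val → (s σ x).val = (σ a).val

/-- A section of the restriction map `PiOne = Gal(univCover / K) → Gal(kbar / k)`, where `kbar` is
the algebraic closure of `k` in `Ω` (which is contained in `univCover`, see the lemma
`algebraic_mem_univCover`): a continuous homomorphism `Gal(kbar / k) → Gal(univCover / K)`, for the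
Krull topologies, such that the image of `σ` acts as `σ` on the elements of `univCover` which are
algebraic over `k`. -/
structure PiOneSection where
  /-- the homomorphism -/
  hom : AbsGal k Ω →* PiOne k K Ω
  /-- it is continuous for the Krull topologies -/
  cont : Continuous hom
  /-- it is a section of the restriction map -/
  isLift : IsLift hom

/-- The compositum of `K` and of a subfield `k'` of `Ω`, as a type. -/
def Compositum (K : Type*) {k Ω : Type*} [Field k] [Field K] [Field Ω] [Algebra K Ω] [Algebra k Ω]
    (k' : IntermediateField k Ω) : Type _ := adjoin K (k' : Set Ω)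

variable {Ω}

noncomputable instance fieldComp (k' : IntermediateField k Ω) : Field (Compositum K k') :=
  (adjoin K (k' : Set Ω)).toField

variable {k} in
noncomputable instance algebraComp (k' : IntermediateField k Ω) : Algebra k (Compositum K k') :=
  (adjoin K (k' : Set Ω)).algebra'

variable {k} in
/-- the norm of the compositum `K k'` over `K` -/
noncomputable def normComp (k' : IntermediateField k Ω) (x : Compositum K k') : K :=
  @Algebra.norm K (adjoin K (k' : Set Ω)) _ _ _ x

/-- `g ∈ L` has divisor divisible by `n`: at every discrete valuation `v` of `L` trivial on `k`,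
`v g` is the `n`-th power of a value of `v`. -/
def DivisorDivisible {L : Type*} [Field L] [Algebra k L] (n : ℕ) (g : L) : Prop :=
  ∀ v : Valuation L (WithZero (Multiplicative ℤ)), IsPlace k v → ∃ h : L, v g = v h ^ n

variable {k} in
/-- `c ∏ᵢ N(δᵢ) ^ eᵢ = u ^ n` for some nonzero `u ∈ k` and nonzero `δᵢ ∈ kᵢ`, where `N` is the norm
from `kᵢ` to `k`. -/
def IsNormPower {I : Type*} [Fintype I] (k' : I → IntermediateField k Ω) (n : ℕ) (e : I → ℤ)
    (c : k) : Prop :=
  ∃ u : k, u ≠ 0 ∧ ∃ δ : ∀ i, k' i, (∀ i, δ i ≠ 0) ∧
    c * ∏ i, (Algebra.norm k (δ i)) ^ e i = u ^ n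

/-- The embeddings over `k` of `k'` in `Ω`. -/
def Emb {k : Type*} [Field k] [Algebra k Ω] (k' : IntermediateField k Ω) : Type _ := k' →ₐ[k] Ω

noncomputable instance fintypeEmb {k : Type*} [Field k] [Algebra k Ω] (k' : IntermediateField k Ω)
    [FiniteDimensional k k'] : Fintype (Emb k') :=
  minpoly.AlgHom.fintype k k' Ω

variable {k} in
/-- The conjugate of the polynomial `f ∈ k'[X]` under the embedding `φ` of `k'` in `Ω`. -/
noncomputable def conjPoly {k' : IntermediateField k Ω} (f : Polynomial k') (φ : Emb k') :
    Polynomial Ω :=
  f.map (AlgHom.toRingHom φ)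

variable {k} in
/-- `P ∈ k[X]` is the norm of a polynomial `f ∈ k'[X]` of degree divisible by `n`: it is the
product of all conjugates of `f` under the embeddings of `k'` in `Ω`. -/
def IsNormPoly (n : ℕ) (k' : IntermediateField k Ω) [FiniteDimensional k k'] (P : k[X]) : Prop :=
  ∃ f : Polynomial k', n ∣ f.natDegree ∧
    P.map (algebraMap k Ω) = ∏ φ : Emb k', conjPoly f φ

end Names

end Pool.Agent.Helper36
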