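import Mathlib

/-!
Galois descent for an action of `Gal(E/k)`, `E` an algebraic closure of `k`, on an
extension field `M` of `E`, by semilinear ring automorphisms.
-/

namespace Pool.Agent.Helper36

open IntermediateField

variable {k E M : Type*} [Field k] [Field E] [Field M] [Algebra k E]
  [IsGalois k E] (ι : E →+* M) (ρ : (E ≃ₐ[k] E) →* (M ≃+* M))

/-- a lift of an embedding of a subfield to the algebraic closure -/
noncomputable def liftEmb (F : IntermediateField k E) (φ : F →ₐ[k] E) : E ≃ₐ[k] E :=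
  AlgEquiv.ofBijective (φ.liftNormal E) (Algebra.IsAlgebraic.algHom_bijective _)

lemma liftEmb_apply (F : IntermediateField k E) (φ : F →ₐ[k] E) (y : F) :
    liftEmb F φ (y : E) = φ y :=
  φ.liftNormal_commutes E y

/-- conjugates of `x` indexed by the embeddings of `F` -/
noncomputable def conj (F : IntermediateField k E) (x : M) (φ : F →ₐ[k] E) : M :=
  ρ (liftEmb F φ) x

variable {ρ}

lemma conj_eq {F : IntermediateField k E} {x : M} (hx : ∀ τ ∈ F.fixingSubgroup, ρ τ x = x)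
    (σ : E ≃ₐ[k] E) (φ : F →ₐ[k] E) (h : ∀ y : F, σ (y : E) = φ y) : ρ σ x = conj ρ F x φ := by
  have h1 : (liftEmb F φ)⁻¹ * σ ∈ F.fixingSubgroup := by
    rw [IntermediateField.mem_fixingSubgroup_iff]
    intro y hy
    have h2 := h ⟨y, hy⟩
    have h3 := liftEmb_apply F φ ⟨y, hy⟩
    show (liftEmb F φ)⁻¹ (σ y) = y
    rw [h2, ← h3]
    exact (liftEmb F φ).symm_apply_apply y
  have h4 := hx _ h1
  rw [map_mul, map_inv] at h4
  have h5 : ρ (liftEmb F φ) ((ρ (liftEmb F φ))⁻¹ (ρ σ x)) = ρ σ x :=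
    (ρ (liftEmb F φ)).apply_symm_apply _
  unfold conj
  rw [← h5]
  congr 1

/-- composition of an embedding with an automorphism -/
def twist (τ : E ≃ₐ[k] E) {F : IntermediateField k E} (φ : F →ₐ[k] E) : F →ₐ[k] E :=
  (τ : E →ₐ[k] E).comp φ

lemma map_conj {F : IntermediateField k E} {x : M} (hx : ∀ τ ∈ F.fixingSubgroup, ρ τ x = x)
    (τ : E ≃ₐ[k] E) (φ : F →ₐ[k] E) : ρ τ (conj ρ F x φ) = conj ρ F x (twist τ φ) := by
  rw [← conj_eq hx (τ * liftEmb F φ) (twist τ φ)]
  · rw [map_mul]; rfl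
  · intro y
    show τ (liftEmb F φ y) = τ (φ y)
    rw [liftEmb_apply]

/-- embeddings composed with an automorphism -/
def twistEquiv (τ : E ≃ₐ[k] E) (F : IntermediateField k E) : (F →ₐ[k] E) ≃ (F →ₐ[k] E) where
  toFun := twist τ
  invFun := twist τ⁻¹
  left_inv φ := by
    ext y
    exact τ.symm_apply_apply _
  right_inv φ := by
    ext y
    exact τ.apply_symm_apply _

/-- the product of the conjugates is invariant -/
lemma prod_conj_invariant {F : IntermediateField k E} [FiniteDimensional k F] {x : M}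
    (hx : ∀ τ ∈ F.fixingSubgroup, ρ τ x = x) (τ : E ≃ₐ[k] E) :
    ρ τ (∏ φ : F →ₐ[k] E, conj ρ F x φ) = ∏ φ : F →ₐ[k] E, conj ρ F x φ := by
  rw [map_prod]
  simp_rw [map_conj hx]
  exact Equiv.prod_comp (twistEquiv τ F) (fun φ => conj ρ F x φ)

variable {ι}

/-- descent: if `γ` is fixed by an open subgroup and multiplied by elements of `E` under the
fixer of `k'`, then some `E`-multiple of `γ` is fixed by the fixer of `k'`. -/
lemma descent (hρ : ∀ σ x, ρ σ (ι x) = ι (σ x)) (k' F : IntermediateField k E)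
    [FiniteDimensional k F] (hkF : k' ≤ F) {γ : M} (hγ0 : γ ≠ 0)
    (hγF : ∀ τ ∈ F.fixingSubgroup, ρ τ γ = γ)
    (hγ : ∀ τ ∈ k'.fixingSubgroup, ∃ z : E, ρ τ γ = ι z * γ) :
    ∃ b : E, b ≠ 0 ∧ ∀ τ ∈ k'.fixingSubgroup, ρ τ (ι b * γ) = ι b * γ := by
  classical
  let S : Finset (F →ₐ[k] E) := Finset.univ.filter (fun φ => ∀ y : F, (y : E) ∈ k' → φ y = y)
  have hS : ∀ φ ∈ S, liftEmb F φ ∈ k'.fixingSubgroup := by
    intro φ hφ
    rw [IntermediateField.mem_fixingSubgroup_iff]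
    intro y hy
    have h1 := (Finset.mem_filter.mp hφ).2 ⟨y, hkF hy⟩ hy
    have h2 := liftEmb_apply F φ ⟨y, hkF hy⟩
    rw [h1] at h2
    exact h2
  choose! z hz using fun φ (hφ : φ ∈ S) => hγ _ (hS φ hφ)
  -- nonvanishing
  have hz0 : ∀ φ ∈ S, z φ ≠ 0 := by
    intro φ hφ h0
    have h1 := hz φ hφ
    rw [h0, map_zero, zero_mul] at h1
    exact hγ0 ((map_eq_zero_iff (ρ (liftEmb F φ)) (ρ (liftEmb F φ)).injective).mp h1)
  have hid : F.val ∈ S := by
    rw [Finset.mem_filter]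
    exact ⟨Finset.mem_univ _, fun y _ => rfl⟩
  have hne : ∃ a : F, ∑ φ ∈ S, z φ * φ a ≠ 0 := by
    by_contra hc
    push Not at hc
    have hli := linearIndependent_monoidHom F E
    have hli2 : LinearIndependent E (fun φ : F →ₐ[k] E => ((φ : F →* E) : F → E)) :=
      hli.comp (fun φ : F →ₐ[k] E => (φ : F →* E))
        (fun φ ψ h => AlgHom.ext (fun y => DFunLike.congr_fun h y))
    rw [linearIndependent_iff'] at hli2
    have h3 := hli2 S z (by
      funext a
      rw [Finset.sum_apply]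
      simpa using hc a) _ hid
    exact hz0 _ hid h3
  obtain ⟨a, ha⟩ := hne
  refine ⟨∑ φ ∈ S, z φ * φ a, ha, ?_⟩
  have hx : ∀ τ ∈ F.fixingSubgroup, ρ τ (ι a * γ) = ι a * γ := by
    intro τ hτ
    rw [map_mul, hγF τ hτ, hρ]
    rw [IntermediateField.mem_fixingSubgroup_iff] at hτ
    rw [hτ a a.2]
  have hsum : ι (∑ φ ∈ S, z φ * φ a) * γ = ∑ φ ∈ S, conj ρ F (ι a * γ) φ := by
    rw [map_sum, Finset.sum_mul]
    apply Finset.sum_congr rfl
    intro φ hφ
    have h1 : conj ρ F (ι a * γ) φ = ι (φ a) * (ι (z φ) * γ) := by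
      unfold conj
      rw [map_mul, hz φ hφ, hρ, liftEmb_apply]
    rw [h1, map_mul]
    ring
  intro τ hτ
  rw [hsum, map_sum]
  simp_rw [map_conj hx]
  refine Finset.sum_equiv (twistEquiv τ F) ?_ (fun φ _ => rfl)
  intro φ
  rw [Finset.mem_filter, Finset.mem_filter]
  rw [IntermediateField.mem_fixingSubgroup_iff] at hτ
  constructor
  · rintro ⟨_, h⟩
    refine ⟨Finset.mem_univ _, fun y hy => ?_⟩
    show τ (φ y) = y
    rw [h y hy, hτ _ hy]
  · rintro ⟨_, h⟩
    refine ⟨Finset.mem_univ _, fun y hy => ?_⟩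
    have h1 : τ (φ y) = y := h y hy
    have h2 : τ (φ y) = τ y := by rw [h1, hτ _ hy]
    exact τ.injective h2

end Pool.Agent.Helper36
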