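import Mathlib
import Pool.Agent.Helper36.Descent

namespace Pool.Agent.Helper36

open IntermediateField

variable {k E M : Type*} [Field k] [Field E] [Field M] [Algebra k E]
  [IsGalois k E] {ι : E →+* M} {ρ : (E ≃ₐ[k] E) →* (M ≃+* M)}

lemma kummer_split (hρ : ∀ σ x, ρ σ (ι x) = ι (σ x))
    (hcont : ∀ x : M, ∃ F : IntermediateField k E, FiniteDimensional k F ∧
      ∀ τ ∈ F.fixingSubgroup, ρ τ x = x)
    (hpow : ∀ (z : M) (n : ℕ), n ≠ 0 → z ^ n ∈ Set.range ι → z ∈ Set.range ι)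
    (k' : IntermediateField k E) [FiniteDimensional k k'] {n : ℕ} (hn : n ≠ 0)
    {γ : M} (hγ0 : γ ≠ 0) (hγ : ∀ τ ∈ k'.fixingSubgroup, ρ τ (γ ^ n) = γ ^ n) :
    ∃ δ : k', δ ≠ 0 ∧ ∃ m : M, m ≠ 0 ∧ γ ^ n = ι (δ : E) * m ^ n ∧
      ∀ τ ∈ k'.fixingSubgroup, ρ τ m = m := by
  obtain ⟨F0, hF0, hF0γ⟩ := hcont γ
  have hfin : FiniteDimensional k (F0 ⊔ k' : IntermediateField k E) :=
    IntermediateField.finiteDimensional_sup F0 k'
  have h1 : ∀ τ ∈ (F0 ⊔ k').fixingSubgroup, ρ τ γ = γ := by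
    intro τ hτ
    exact hF0γ τ (fixingSubgroup_le (le_sup_left : F0 ≤ F0 ⊔ k') hτ)
  have h2 : ∀ τ ∈ k'.fixingSubgroup, ∃ z : E, ρ τ γ = ι z * γ := by
    intro τ hτ
    have h3 := hγ τ hτ
    rw [map_pow] at h3
    have h4 : (ρ τ γ / γ) ^ n = 1 := by
      rw [div_pow, h3, div_self (pow_ne_zero _ hγ0)]
    obtain ⟨z, hz⟩ := hpow (ρ τ γ / γ) n hn (by rw [h4]; exact ⟨1, map_one ι⟩)
    refine ⟨z, ?_⟩
    rw [hz]; field_simp
  obtain ⟨b, hb0, hb⟩ := descent hρ k' (F0 ⊔ k') le_sup_right hγ0 h1 h2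
  have hb0' : ι b ≠ 0 := by
    rwa [ne_eq, map_eq_zero_iff ι ι.injective]
  have hbn : b ^ n ∈ k' := by
    rw [← InfiniteGalois.fixedField_fixingSubgroup k', IntermediateField.mem_fixedField_iff]
    intro τ hτ
    apply ι.injective
    rw [← hρ]
    have h5 : ι (b ^ n) = (ι b * γ) ^ n / γ ^ n := by
      rw [mul_pow, map_pow]; field_simp
    rw [h5, map_div₀, hγ τ hτ, map_pow, hb τ hτ]
  have hδ : (b ^ n)⁻¹ ∈ k' := inv_mem hbn
  refine ⟨⟨(b ^ n)⁻¹, hδ⟩, ?_, ι b * γ, mul_ne_zero hb0' hγ0, ?_, hb⟩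
  · intro h
    have h6 : (b ^ n)⁻¹ = 0 := congrArg Subtype.val h
    exact inv_ne_zero (pow_ne_zero _ hb0) h6
  · show γ ^ n = ι ((b ^ n)⁻¹) * (ι b * γ) ^ n
    rw [map_inv₀, map_pow, mul_pow]
    field_simp

lemma conj_mul {F : IntermediateField k E} (x y : M) (φ : F →ₐ[k] E) :
    conj ρ F (x * y) φ = conj ρ F x φ * conj ρ F y φ := map_mul _ _ _

lemma conj_pow {F : IntermediateField k E} (x : M) (n : ℕ) (φ : F →ₐ[k] E) :
    conj ρ F (x ^ n) φ = conj ρ F x φ ^ n := map_pow _ _ _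

lemma conj_ι (hρ : ∀ σ x, ρ σ (ι x) = ι (σ x)) {F : IntermediateField k E} (δ : F)
    (φ : F →ₐ[k] E) : conj ρ F (ι (δ : E)) φ = ι (φ δ) := by
  unfold conj
  rw [hρ, liftEmb_apply]

/-- The abstract norm argument. -/
theorem norm_arg [IsAlgClosed E] (hρ : ∀ σ x, ρ σ (ι x) = ι (σ x))
    (hcont : ∀ x : M, ∃ F : IntermediateField k E, FiniteDimensional k F ∧
      ∀ τ ∈ F.fixingSubgroup, ρ τ x = x)
    (hpow : ∀ (z : M) (n : ℕ), n ≠ 0 → z ^ n ∈ Set.range ι → z ∈ Set.range ι)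
    {I : Type*} [Fintype I] (F : I → IntermediateField k E) [∀ i, FiniteDimensional k (F i)]
    {n : ℕ} (hn : n ≠ 0) (γ : I → M) (hγ0 : ∀ i, γ i ≠ 0)
    (hγ : ∀ i, ∀ τ ∈ (F i).fixingSubgroup, ρ τ (γ i ^ n) = γ i ^ n) (e : I → ℤ)
    (c : k) (hc : c ≠ 0) (y : M) (hy : ∀ τ, ρ τ y = y)
    (hcy : ι (algebraMap k E c) * ∏ i, (∏ φ : F i →ₐ[k] E, conj ρ (F i) (γ i ^ n) φ) ^ (e i)
      = y ^ n) :
    ∃ u : k, u ≠ 0 ∧ ∃ δ : ∀ i, F i, (∀ i, δ i ≠ 0) ∧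
      c * ∏ i, (Algebra.norm k (δ i)) ^ (e i) = u ^ n := by
  choose δ hδ0 m hm0 hm hmτ using fun i => kummer_split hρ hcont hpow (F i) hn (hγ0 i) (hγ i)
  have hN : ∀ i, (∏ φ : F i →ₐ[k] E, conj ρ (F i) (γ i ^ n) φ) =
      ι (algebraMap k E (Algebra.norm k (δ i))) * (∏ φ : F i →ₐ[k] E, conj ρ (F i) (m i) φ) ^ n := by
    intro i
    rw [Algebra.norm_eq_prod_embeddings k E, map_prod, ← Finset.prod_pow, ← Finset.prod_mul_distrib]
    apply Finset.prod_congr rfl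
    intro φ _
    rw [hm i, conj_mul, conj_pow, conj_ι hρ]
  set P : I → M := fun i => ∏ φ : F i →ₐ[k] E, conj ρ (F i) (m i) φ with hP
  have hPτ : ∀ i τ, ρ τ (P i) = P i := fun i τ => prod_conj_invariant (hmτ i) τ
  have hP0 : ∀ i, P i ≠ 0 := by
    intro i
    apply Finset.prod_ne_zero_iff.mpr
    intro φ _
    unfold conj
    rw [ne_eq, map_eq_zero_iff _ (ρ _).injective]
    exact hm0 i
  set Q : M := ∏ i, P i ^ (e i) with hQ
  have hQ0 : Q ≠ 0 := Finset.prod_ne_zero_iff.mpr (fun i _ => zpow_ne_zero _ (hP0 i))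
  have hQτ : ∀ τ, ρ τ Q = Q := by
    intro τ
    rw [hQ, map_prod]
    apply Finset.prod_congr rfl
    intro i _
    rw [map_zpow₀, hPτ]
  set d : k := c * ∏ i, (Algebra.norm k (δ i)) ^ (e i) with hd
  have hmain : ι (algebraMap k E d) * Q ^ n = y ^ n := by
    rw [← hcy, hd, map_mul, map_mul, mul_assoc]
    congr 1
    rw [map_prod, map_prod, hQ, ← Finset.prod_pow, ← Finset.prod_mul_distrib]
    apply Finset.prod_congr rfl
    intro i _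
    rw [hN i, mul_zpow, map_zpow₀, map_zpow₀]
    congr 1
    rw [← zpow_natCast, ← zpow_mul, ← zpow_natCast, ← zpow_mul, mul_comm]
  have hd0 : d ≠ 0 := by
    rw [hd]
    refine mul_ne_zero hc (Finset.prod_ne_zero_iff.mpr (fun i _ => zpow_ne_zero _ ?_))
    rw [Algebra.norm_ne_zero_iff]
    exact hδ0 i
  have hyQ : (y / Q) ^ n = ι (algebraMap k E d) := by
    rw [div_pow, ← hmain]; field_simp
  obtain ⟨x, hx⟩ := hpow (y / Q) n hn (by rw [hyQ]; exact ⟨_, rfl⟩)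
  have hxτ : ∀ τ : E ≃ₐ[k] E, τ x = x := by
    intro τ
    apply ι.injective
    rw [← hρ, hx, map_div₀, hy, hQτ]
  obtain ⟨u, hu⟩ := (InfiniteGalois.mem_range_algebraMap_iff_fixed x).mpr hxτ
  have hun : d = u ^ n := by
    apply (algebraMap k E).injective
    apply ι.injective
    rw [← hyQ, ← hx, ← hu, map_pow, map_pow]
  refine ⟨u, ?_, δ, hδ0, hun⟩
  rintro rfl
  rw [zero_pow hn] at hun
  exact hd0 hun

end Pool.Agent.Helper36
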