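import Mathlib

namespace Pool.Agent.Helper36

open Polynomial

/-- the codomain of discrete valuations -/
abbrev Zm0 := WithZero (Multiplicative ℤ)

section DVR

variable {K L : Type*} [Field K] [Field L] [Algebra K L]

lemma log_neg_of_lt_one {x : Zm0} (h0 : x ≠ 0) (h : x < 1) : WithZero.log x < 0 := by
  by_contra hc
  have h1 : WithZero.log (1 : Zm0) ≤ WithZero.log x := by
    rw [WithZero.log_one]; omega
  rw [WithZero.log_le_log one_ne_zero h0] at h1
  exact absurd h (not_lt.mpr h1)

lemma log_nonpos_of_le_one {x : Zm0} (h0 : x ≠ 0) (h : x ≤ 1) : WithZero.log x ≤ 0 := by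
  have := (WithZero.log_le_log h0 one_ne_zero).mpr h
  simpa using this

/-- element of `K` of maximal valuation `< 1`. -/
lemma exists_unif (v : Valuation L Zm0)
    (h : ∃ x : K, x ≠ 0 ∧ v (algebraMap K L x) ≠ 1) :
    ∃ p : K, p ≠ 0 ∧ v (algebraMap K L p) < 1 ∧
      ∀ x : K, v (algebraMap K L x) < 1 → v (algebraMap K L x) ≤ v (algebraMap K L p) := by
  classical
  -- first some element of valuation < 1
  have h1 : ∃ n : ℕ, ∃ x : K, x ≠ 0 ∧ v (algebraMap K L x) < 1 ∧
      WithZero.log (v (algebraMap K L x)) = -(n : ℤ) := by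
    obtain ⟨x, hx0, hx1⟩ := h
    have hvx : v (algebraMap K L x) ≠ 0 := by
      simpa [Valuation.ne_zero_iff] using hx0
    rcases lt_or_gt_of_ne hx1 with hlt | hgt
    · refine ⟨(-(WithZero.log (v (algebraMap K L x)))).toNat, x, hx0, hlt, ?_⟩
      have := log_neg_of_lt_one hvx hlt
      omega
    · refine ⟨(WithZero.log (v (algebraMap K L x))).toNat, x⁻¹, inv_ne_zero hx0, ?_, ?_⟩
      · rw [map_inv₀, map_inv₀]
        exact inv_lt_one_of_one_lt₀ hgt
      · have hlt : v (algebraMap K L x⁻¹) < 1 := by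
          rw [map_inv₀, map_inv₀]
          exact inv_lt_one_of_one_lt₀ hgt
        have hne : v (algebraMap K L x⁻¹) ≠ 0 := by
          simpa [Valuation.ne_zero_iff] using hx0
        have := log_neg_of_lt_one hne hlt
        have h2 : WithZero.log (v (algebraMap K L x⁻¹)) = - WithZero.log (v (algebraMap K L x)) := by
          rw [map_inv₀, map_inv₀, WithZero.log_inv]
        omega
  obtain ⟨x, hx0, hx1, hx2⟩ := Nat.find_spec h1
  refine ⟨x, hx0, hx1, ?_⟩
  intro y hy
  by_cases hy0 : y = 0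
  · subst hy0; simp
  have hvy : v (algebraMap K L y) ≠ 0 := by
    simpa [Valuation.ne_zero_iff] using hy0
  have hvx : v (algebraMap K L x) ≠ 0 := by
    simpa [Valuation.ne_zero_iff] using hx0
  rw [← WithZero.log_le_log hvy hvx]
  have h3 := log_neg_of_lt_one hvy hy
  have h4 : Nat.find h1 ≤ (-(WithZero.log (v (algebraMap K L y)))).toNat := by
    apply Nat.find_min' h1
    refine ⟨y, hy0, hy, ?_⟩
    omega
  rw [hx2]
  omega


/-- Abstract core: `B → A` local map of local rings, the maximal ideal of `B` generated by `p`,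
`θ ∈ A` a simple root modulo the maximal ideal of a polynomial over `B`, and a length function
on `A`.  Then every nonzero `P(θ)` is a power of `p` times a unit. -/
lemma key_abs {A B : Type*} [CommRing A] [IsDomain A] [IsLocalRing A] [CommRing B] [IsLocalRing B]
    (φ : B →+* A) [IsLocalHom φ] (w : A → ℕ)
    (hw : ∀ a b : A, a ≠ 0 → b ≠ 0 → w (a * b) = w a + w b)
    (hw0 : ∀ a : A, a ≠ 0 → (w a = 0 ↔ IsUnit a))
    (p : B) (hp0 : φ p ≠ 0) (hp : ¬ IsUnit p) (hmax : ∀ b : B, ¬ IsUnit b → p ∣ b)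
    (θ : A) (f : B[X]) (hf : eval₂ φ θ f = 0) (hf' : IsUnit (eval₂ φ θ (derivative f)))
    (n : ℕ) : ∀ P : B[X], eval₂ φ θ P ≠ 0 → w (eval₂ φ θ P) = n →
      ∃ m : ℕ, ∃ u : Aˣ, eval₂ φ θ P = φ p ^ m * u := by
  classical
  let φb : IsLocalRing.ResidueField B →+* IsLocalRing.ResidueField A :=
    IsLocalRing.ResidueField.map φ
  let θb : IsLocalRing.ResidueField A := IsLocalRing.residue A θ
  have hevb : ∀ Q : B[X], eval₂ φb θb (Q.map (IsLocalRing.residue B)) =
      IsLocalRing.residue A (eval₂ φ θ Q) := by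
    intro Q
    rw [eval₂_map, hom_eval₂]
    rfl
  let I : Ideal (IsLocalRing.ResidueField B)[X] := RingHom.ker (eval₂RingHom φb θb)
  let h := Submodule.IsPrincipal.generator I
  have hI : ∀ Q, eval₂ φb θb Q = 0 ↔ h ∣ Q := by
    intro Q
    rw [← Submodule.IsPrincipal.mem_iff_generator_dvd I]
    rfl
  have hsurj : Function.Surjective (Polynomial.map (IsLocalRing.residue B)) :=
    Polynomial.map_surjective _ IsLocalRing.residue_surjective
  obtain ⟨H, hH⟩ := hsurj h
  have hzero : ∀ R : B[X], R.map (IsLocalRing.residue B) = 0 → ∃ S : B[X], R = C p * S := by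
    intro R hR
    have : C p ∣ R := by
      rw [C_dvd_iff_dvd_coeff]
      intro i
      have h1 : IsLocalRing.residue B (R.coeff i) = 0 := by
        rw [← coeff_map, hR, coeff_zero]
      rw [IsLocalRing.residue_eq_zero_iff, IsLocalRing.mem_maximalIdeal, mem_nonunits_iff] at h1
      exact hmax _ h1
    exact this
  have hfb : h ∣ f.map (IsLocalRing.residue B) := by
    rw [← hI, hevb, hf, map_zero]
  obtain ⟨qb, hqb⟩ := hfb
  obtain ⟨q, hq⟩ := hsurj qb
  have hr0 : (f - H * q).map (IsLocalRing.residue B) = 0 := by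
    rw [Polynomial.map_sub, Polynomial.map_mul, hH, hq, hqb, sub_self]
  obtain ⟨r, hr⟩ := hzero _ hr0
  have hHb : eval₂ φb θb h = 0 := (hI h).mpr dvd_rfl
  have hq1 : IsUnit (eval₂ φ θ q) := by
    by_contra hne
    have h2 : IsLocalRing.residue A (eval₂ φ θ q) = 0 := by
      rw [IsLocalRing.residue_eq_zero_iff, IsLocalRing.mem_maximalIdeal, mem_nonunits_iff]
      exact hne
    rw [← hevb, hq] at h2
    have h3 : eval₂ φb θb (derivative (f.map (IsLocalRing.residue B))) = 0 := by
      rw [hqb, derivative_mul, eval₂_add, eval₂_mul, eval₂_mul, h2, hHb]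
      simp
    rw [derivative_map, hevb, IsLocalRing.residue_eq_zero_iff, IsLocalRing.mem_maximalIdeal,
      mem_nonunits_iff] at h3
    exact h3 hf'
  have hHθ : eval₂ φ θ H * eval₂ φ θ q = - (φ p * eval₂ φ θ r) := by
    have h1 : eval₂ φ θ (f - H * q) = eval₂ φ θ (C p * r) := by rw [hr]
    rw [eval₂_sub, eval₂_mul, eval₂_mul, eval₂_C, hf, zero_sub] at h1
    rw [← h1]; ring
  induction n using Nat.strong_induction_on with
  | _ n ih =>
  intro P hP0 hPn
  rcases Nat.eq_zero_or_pos n with hn | hn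
  · rw [hn, hw0 _ hP0] at hPn
    obtain ⟨u, hu⟩ := hPn
    exact ⟨0, u, by rw [pow_zero, one_mul, hu]⟩
  · have hnu : ¬ IsUnit (eval₂ φ θ P) := by
      rw [← hw0 _ hP0, hPn]; omega
    have h2 : IsLocalRing.residue A (eval₂ φ θ P) = 0 := by
      rw [IsLocalRing.residue_eq_zero_iff, IsLocalRing.mem_maximalIdeal, mem_nonunits_iff]
      exact hnu
    rw [← hevb, hI] at h2
    obtain ⟨ub, hub⟩ := h2
    obtain ⟨u, hu⟩ := hsurj ub
    have hr1 : (P - H * u).map (IsLocalRing.residue B) = 0 := by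
      rw [Polynomial.map_sub, Polynomial.map_mul, hH, hu, hub, sub_self]
    obtain ⟨t, ht⟩ := hzero _ hr1
    have hPθ : eval₂ φ θ P * eval₂ φ θ q = φ p * eval₂ φ θ (t * q - r * u) := by
      have h1 : eval₂ φ θ (P - H * u) = eval₂ φ θ (C p * t) := by rw [ht]
      rw [eval₂_sub, eval₂_mul, eval₂_mul, eval₂_C] at h1
      rw [eval₂_sub, eval₂_mul, eval₂_mul]
      linear_combination (eval₂ φ θ q) * h1 + (eval₂ φ θ u) * hHθ
    have hP'0 : eval₂ φ θ (t * q - r * u) ≠ 0 := by
      intro h0
      rw [h0, mul_zero] at hPθ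
      rcases mul_eq_zero.mp hPθ with h | h
      · exact hP0 h
      · rw [h] at hq1; exact not_isUnit_zero hq1
    have hpp : w (φ p) ≠ 0 := by
      rw [ne_eq, hw0 _ hp0]
      intro h
      exact hp ((isUnit_map_iff φ p).mp h)
    have hlen : w (eval₂ φ θ P) + w (eval₂ φ θ q) =
        w (φ p) + w (eval₂ φ θ (t * q - r * u)) := by
      rw [← hw _ _ hP0 hq1.ne_zero, ← hw _ _ hp0 hP'0, hPθ]
    have hq2 : w (eval₂ φ θ q) = 0 := (hw0 _ hq1.ne_zero).mpr hq1
    obtain ⟨m, v, hmv⟩ := ih (w (eval₂ φ θ (t * q - r * u))) (by omega) (t * q - r * u) hP'0 rfl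
    refine ⟨m + 1, v * hq1.unit⁻¹, ?_⟩
    have h5 : eval₂ φ θ P * eval₂ φ θ q = φ p * (φ p ^ m * v) := by rw [hPθ, hmv]
    calc eval₂ φ θ P = eval₂ φ θ P * eval₂ φ θ q * (hq1.unit⁻¹ : Aˣ) := by
          rw [mul_assoc, IsUnit.mul_val_inv, mul_one]
      _ = φ p ^ (m + 1) * ((v * hq1.unit⁻¹ : Aˣ) : A) := by
          rw [h5]; push_cast; ring


end DVR

section DVR2

variable {K L : Type*} [Field K] [Field L] [Algebra K L]

lemma isUnit_valSubring_iff {F : Type*} [Field F] (v : Valuation F Zm0) (a : v.valuationSubring) :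
    IsUnit a ↔ v (a : F) = 1 :=
  Valuation.Integers.isUnit_iff_valuation_eq_one (Valuation.valuationSubring.integers v) (x := a)

/-- roots of monic polynomials with integral coefficients are integral -/
lemma val_le_one_of_root (v : Valuation L Zm0) (θ : L) (f : K[X]) (hf : f.Monic)
    (hfB : ∀ i, v (algebraMap K L (f.coeff i)) ≤ 1) (hfθ : aeval θ f = 0) : v θ ≤ 1 := by
  by_contra hc
  rw [not_le] at hc
  have hn : f.natDegree ≠ 0 := by
    intro h0
    have : f = 1 := hf.natDegree_eq_zero.mp h0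
    rw [this, map_one] at hfθ
    exact one_ne_zero hfθ
  rw [aeval_eq_sum_range, Finset.sum_range_succ, hf.coeff_natDegree, one_smul,
    add_eq_zero_iff_eq_neg] at hfθ
  apply_fun v at hfθ
  rw [Valuation.map_neg, map_pow] at hfθ
  refine absurd hfθ (ne_of_lt (v.map_sum_lt ?_ ?_))
  · exact pow_ne_zero _ (ne_of_gt (lt_trans zero_lt_one hc))
  · intro i hi
    rw [Finset.mem_range] at hi
    rw [Algebra.smul_def, map_mul, map_pow]
    exact mul_lt_of_le_one_of_lt (hfB i) (pow_lt_pow_right₀ hc hi)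

/-- Let `θ` be a root of a monic polynomial over the valuation ring of `K` whose derivative at
`θ` is a unit.  Then every nonzero element of `K[θ]` has the valuation of an element of `K`. -/
lemma key_val (v : Valuation L Zm0) (hnt : ∃ x : K, x ≠ 0 ∧ v (algebraMap K L x) ≠ 1)
    (θ : L) (f : K[X]) (hf : f.Monic) (hfB : ∀ i, v (algebraMap K L (f.coeff i)) ≤ 1)
    (hfθ : aeval θ f = 0) (hf' : v (aeval θ (derivative f)) = 1) (P : K[X]) (hP : aeval θ P ≠ 0) :
    ∃ x : K, v (algebraMap K L x) = v (aeval θ P) := by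
  classical
  have hθ := val_le_one_of_root v θ f hf hfB hfθ
  obtain ⟨p, hp0, hp1, hmax⟩ := exists_unif v hnt
  let v' : Valuation K Zm0 := v.comap (algebraMap K L)
  have hv' : ∀ x : K, v' x = v (algebraMap K L x) := fun x => rfl
  let j : v'.valuationSubring →+* L := (algebraMap K L).comp v'.valuationSubring.subtype
  have hjA : ∀ b : v'.valuationSubring, j b ∈ v.valuationSubring := fun b => b.2
  let φ : v'.valuationSubring →+* v.valuationSubring := j.codRestrict v.valuationSubring hjA
  have hφj : ∀ b, ((φ b : v.valuationSubring) : L) = algebraMap K L (b : K) := fun b => rfl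
  have hloc : IsLocalHom φ := by
    constructor
    intro b hb
    rw [isUnit_valSubring_iff] at hb ⊢
    exact hb
  let θA : v.valuationSubring := ⟨θ, hθ⟩
  have hev : ∀ Q : v'.valuationSubring[X],
      ((eval₂ φ θA Q : v.valuationSubring) : L) = aeval θ (Q.map v'.valuationSubring.subtype) := by
    intro Q
    have h1 := hom_eval₂ Q φ v.valuationSubring.subtype θA
    have h2 : v.valuationSubring.subtype (eval₂ φ θA Q) =
      ((eval₂ φ θA Q : v.valuationSubring) : L) := rfl
    rw [h2] at h1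
    rw [h1, aeval_def, eval₂_map]
    rfl
  have hsurj : ∀ Q : K[X], (∀ i, v (algebraMap K L (Q.coeff i)) ≤ 1) →
      ∃ Q' : v'.valuationSubring[X], Q'.map v'.valuationSubring.subtype = Q := by
    intro Q hQ
    have : Q ∈ lifts v'.valuationSubring.subtype := by
      rw [lifts_iff_coeff_lifts]
      intro i
      exact ⟨⟨Q.coeff i, hQ i⟩, rfl⟩
    rwa [mem_lifts] at this
  obtain ⟨fB, hfB'⟩ := hsurj f hfB
  -- scale P
  have hscale : ∃ c : K, c ≠ 0 ∧ ∀ i, v (algebraMap K L ((C c⁻¹ * P).coeff i)) ≤ 1 := by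
    have hPne : P ≠ 0 := by
      rintro rfl
      exact hP (map_zero _)
    obtain ⟨i0, hi0, hi1⟩ := Finset.exists_max_image P.support
      (fun i => v (algebraMap K L (P.coeff i))) (Polynomial.support_nonempty.mpr hPne)
    refine ⟨P.coeff i0, mem_support_iff.mp hi0, ?_⟩
    intro i
    rw [coeff_C_mul, map_mul, map_mul, map_inv₀, map_inv₀]
    by_cases hi : i ∈ P.support
    · have h1 := hi1 i hi
      have h2 : v (algebraMap K L (P.coeff i0)) ≠ 0 := by
        simpa [Valuation.ne_zero_iff] using hi0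
      rw [inv_mul_le_iff₀ (zero_lt_iff.mpr h2), mul_one]
      exact h1
    · rw [notMem_support_iff] at hi
      rw [hi]; simp
  obtain ⟨c, hc0, hc⟩ := hscale
  obtain ⟨PB, hPB⟩ := hsurj _ hc
  let w : v.valuationSubring → ℕ := fun a => (-(WithZero.log (v (a : L)))).toNat
  have hw : ∀ a b : v.valuationSubring, a ≠ 0 → b ≠ 0 → w (a * b) = w a + w b := by
    intro a b ha hb
    have ha' : v (a : L) ≠ 0 := by
      rw [Valuation.ne_zero_iff]
      intro h; exact ha (Subtype.ext h)
    have hb' : v (b : L) ≠ 0 := by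
      rw [Valuation.ne_zero_iff]
      intro h; exact hb (Subtype.ext h)
    have h1 := log_nonpos_of_le_one ha' a.2
    have h2 := log_nonpos_of_le_one hb' b.2
    have h3 : WithZero.log (v ((a * b : v.valuationSubring) : L)) =
      WithZero.log (v (a : L)) + WithZero.log (v (b : L)) := by
      rw [← WithZero.log_mul ha' hb', ← map_mul]; rfl
    show (-(WithZero.log (v ((a * b : v.valuationSubring) : L)))).toNat = _
    rw [h3]
    show _ = (-(WithZero.log (v (a : L)))).toNat + (-(WithZero.log (v (b : L)))).toNat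
    omega
  have hw0 : ∀ a : v.valuationSubring, a ≠ 0 → (w a = 0 ↔ IsUnit a) := by
    intro a ha
    have ha' : v (a : L) ≠ 0 := by
      rw [Valuation.ne_zero_iff]
      intro h; exact ha (Subtype.ext h)
    have h1 := log_nonpos_of_le_one ha' a.2
    rw [isUnit_valSubring_iff]
    constructor
    · intro h
      have h4 : (-(WithZero.log (v (a : L)))).toNat = 0 := h
      have h5 : WithZero.log (v (a : L)) = 0 := by omega
      rw [← WithZero.exp_log ha', h5, WithZero.exp_zero]
    · intro h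
      show (-(WithZero.log (v (a : L)))).toNat = 0
      rw [h]; simp
  let pB : v'.valuationSubring := ⟨p, le_of_lt hp1⟩
  have hdiv : ∀ b : v'.valuationSubring, ¬ IsUnit b → pB ∣ b := by
    intro b hb
    rw [isUnit_valSubring_iff] at hb
    have hb1 : v' (b : K) ≤ 1 := b.2
    have h2 : v' (b : K) ≤ v' p := hmax _ (lt_of_le_of_ne hb1 hb)
    refine ⟨⟨(b : K) / p, ?_⟩, ?_⟩
    · rw [Valuation.mem_valuationSubring_iff, map_div₀]
      apply div_le_one_of_le₀ h2
      simp
    · apply Subtype.ext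
      show (b : K) = p * ((b : K) / p)
      field_simp
  have hPB0 : eval₂ φ θA PB ≠ 0 := by
    intro h
    have h1 := hev PB
    rw [h, hPB, map_mul, aeval_C] at h1
    have h2 : (((0 : v.valuationSubring)) : L) = 0 := rfl
    rw [h2] at h1
    rcases mul_eq_zero.mp h1.symm with h3 | h3
    · simp [hc0] at h3
    · exact hP h3
  obtain ⟨m, u, hmu⟩ := key_abs φ w hw hw0 pB
    (by
      intro h
      have h1 : ((φ pB : v.valuationSubring) : L) = 0 := by rw [h]; rfl
      rw [hφj] at h1
      simp [pB, hp0] at h1)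
    (by rw [isUnit_valSubring_iff]; exact ne_of_lt hp1) hdiv θA fB
    (by
      apply Subtype.ext
      rw [hev, hfB', hfθ]; rfl)
    (by
      rw [isUnit_valSubring_iff, hev, ← derivative_map, hfB', hf']) _ PB hPB0 rfl
  refine ⟨c * p ^ m, ?_⟩
  have h6 : aeval θ P = algebraMap K L c * ((eval₂ φ θA PB : v.valuationSubring) : L) := by
    rw [hev, hPB, map_mul, aeval_C, map_inv₀, ← mul_assoc, mul_inv_cancel₀, one_mul]
    simpa using hc0
  have h7 : ((eval₂ φ θA PB : v.valuationSubring) : L) = (algebraMap K L p) ^ m * ((u : v.valuationSubring) : L) := by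
    rw [hmu]; rfl
  have h8 : v ((u : v.valuationSubring) : L) = 1 := by
    rw [← isUnit_valSubring_iff]; exact u.isUnit
  rw [h6, h7, map_mul, map_mul, map_mul, map_mul, h8, mul_one, map_pow]


end DVR2

end Pool.Agent.Helper36
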