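import Mathlib
import Pool.Agent.Helper36.ValUnram
import Pool.Agent.Helper36.SecDefs

namespace Pool.Agent.Helper36

open Polynomial IntermediateField

section A

variable {k L : Type*} [Field k] [Field L] [Algebra k L]

/-- nonzero elements algebraic over `k` are units at places trivial on `k` -/
lemma val_eq_one_of_algebraic {v : Valuation L Zm0} (hv : ∀ c : k, c ≠ 0 → v (algebraMap k L c) = 1)
    {x : L} (hx : IsAlgebraic k x) (hx0 : x ≠ 0) : v x = 1 := by
  have key : ∀ y : L, IsAlgebraic k y → v y ≤ 1 := by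
    intro y hy
    refine val_le_one_of_root (K := k) v y (minpoly k y) (minpoly.monic hy.isIntegral) ?_
      (minpoly.aeval k y)
    intro i
    by_cases h : (minpoly k y).coeff i = 0
    · rw [h]; simp
    · exact le_of_eq (hv _ h)
  apply le_antisymm (key x hx)
  have h1 := key x⁻¹ hx.inv
  rw [map_inv₀] at h1
  have h2 : v x ≠ 0 := by rwa [Valuation.ne_zero_iff]
  exact (inv_le_one₀ (zero_lt_iff.mpr h2)).mp h1

end A

section B

variable {k K L : Type*} [Field k] [Field K] [Field L] [Algebra k K] [Algebra K L] [Algebra k L]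
  [IsScalarTower k K L]

/-- a nontrivial valuation is nontrivial on any subfield over which the field is algebraic -/
lemma nontriv_of_algebraic [Algebra.IsAlgebraic K L] (v : Valuation L Zm0)
    (h : ∃ x : L, x ≠ 0 ∧ v x ≠ 1) : ∃ x : K, x ≠ 0 ∧ v (algebraMap K L x) ≠ 1 := by
  by_contra hc
  push Not at hc
  obtain ⟨x, hx0, hx1⟩ := h
  exact hx1 (val_eq_one_of_algebraic (k := K) hc (Algebra.IsAlgebraic.isAlgebraic x) hx0)

lemma IsPlace.comap [Algebra.IsAlgebraic K L] {v : Valuation L Zm0} (hv : IsPlace k v) :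
    IsPlace k (v.comap (algebraMap K L)) := by
  refine ⟨?_, ?_⟩
  · intro c hc
    have := hv.1 c hc
    rwa [IsScalarTower.algebraMap_apply k K L] at this
  · exact nontriv_of_algebraic v hv.2

/-- constant extensions are unramified, local form -/
lemma val_const [CharZero k] [Algebra.IsAlgebraic K L] {v : Valuation L Zm0} (hv : IsPlace k v)
    {θ : L} (hθ : IsAlgebraic k θ) {z : L} (hz : z ∈ K⟮θ⟯) :
    ∃ x : K, v (algebraMap K L x) = v z := by
  by_cases hz0 : z = 0
  · exact ⟨0, by rw [hz0]; simp⟩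
  have hz1 : z ∈ (K⟮θ⟯).toSubalgebra := hz
  rw [adjoin_simple_toSubalgebra_of_isAlgebraic (Algebra.IsAlgebraic.isAlgebraic θ),
    Algebra.adjoin_singleton_eq_range_aeval] at hz1
  obtain ⟨P, rfl⟩ := hz1
  have hP0 : aeval θ P ≠ 0 := hz0
  refine key_val v (nontriv_of_algebraic v hv.2) θ ((minpoly k θ).map (algebraMap k K))
    ((minpoly.monic hθ.isIntegral).map _) ?_ ?_ ?_ P hP0
  · intro i
    rw [coeff_map, ← IsScalarTower.algebraMap_apply]
    by_cases h : (minpoly k θ).coeff i = 0
    · rw [h]; simp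
    · exact le_of_eq (hv.1 _ h)
  · rw [aeval_map_algebraMap, minpoly.aeval]
  · rw [derivative_map, aeval_map_algebraMap]
    apply val_eq_one_of_algebraic hv.1
    · have h1 : aeval θ (derivative (minpoly k θ)) ∈ (k⟮θ⟯) :=
        algebra_adjoin_le_adjoin k {θ} (aeval_mem_adjoin_singleton k θ)
      have : Algebra.IsAlgebraic k k⟮θ⟯ := isAlgebraic_adjoin_simple hθ.isIntegral
      have h2 := Algebra.IsAlgebraic.isAlgebraic (R := k) (⟨_, h1⟩ : k⟮θ⟯)
      exact (isAlgebraic_algebraMap_iff (algebraMap k⟮θ⟯ L).injective).mpr h2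
    · have hsep : (minpoly k θ).Separable := (minpoly.irreducible hθ.isIntegral).separable
      exact hsep.aeval_derivative_ne_zero (minpoly.aeval k θ)

/-- Kummer extensions `K(γ)`, `γ^n = g`, are unramified where the valuation of `g` is divisible
by `n`. -/
lemma val_kummer [CharZero k] [Algebra.IsAlgebraic K L] {v : Valuation L Zm0} (hv : IsPlace k v)
    {n : ℕ} (hn : n ≠ 0) {g : K} (hg : g ≠ 0) {γ : L} (hγ : γ ^ n = algebraMap K L g)
    (hdiv : ∃ h : K, v (algebraMap K L g) = v (algebraMap K L h) ^ n)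
    {z : L} (hz : z ∈ K⟮γ⟯) :
    ∃ x : K, v (algebraMap K L x) = v z := by
  by_cases hz0 : z = 0
  · exact ⟨0, by rw [hz0]; simp⟩
  obtain ⟨h, hh⟩ := hdiv
  have hg' : v (algebraMap K L g) ≠ 0 := by
    simpa [Valuation.ne_zero_iff] using hg
  have hh0 : h ≠ 0 := by
    rintro rfl
    rw [hh, map_zero, map_zero, zero_pow hn] at hg'
    exact hg' rfl
  have hh' : algebraMap K L h ≠ 0 := by simpa using hh0
  have hvh : v (algebraMap K L h) ≠ 0 := by rwa [Valuation.ne_zero_iff]
  set θ : L := γ / algebraMap K L h with hθdef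
  have hγθ : γ = algebraMap K L h * θ := by
    rw [hθdef]; field_simp
  have hθn : θ ^ n = algebraMap K L (g / h ^ n) := by
    rw [hθdef, div_pow, hγ, map_div₀, map_pow]
  have hvθn : v θ ^ n = 1 := by
    rw [← map_pow, hθn, map_div₀, map_div₀, hh, map_pow, map_pow, div_self]
    exact pow_ne_zero _ hvh
  have hvθ : v θ = 1 := by
    exact (pow_eq_one_iff_of_nonneg zero_le hn).mp hvθn
  have hzθ : z ∈ K⟮θ⟯ := by
    have : K⟮γ⟯ ≤ K⟮θ⟯ := by
      rw [adjoin_simple_le_iff, hγθ]
      exact mul_mem (IntermediateField.algebraMap_mem _ h) (mem_adjoin_simple_self K θ)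
    exact this hz
  have hz1 : z ∈ (K⟮θ⟯).toSubalgebra := hzθ
  rw [adjoin_simple_toSubalgebra_of_isAlgebraic (Algebra.IsAlgebraic.isAlgebraic θ),
    Algebra.adjoin_singleton_eq_range_aeval] at hz1
  obtain ⟨P, rfl⟩ := hz1
  have hP0 : aeval θ P ≠ 0 := hz0
  have hgh : v (algebraMap K L (g / h ^ n)) = 1 := by
    rw [← hθn, map_pow, hvθn]
  refine key_val v (nontriv_of_algebraic v hv.2) θ (X ^ n - C (g / h ^ n))
    (monic_X_pow_sub_C _ hn) ?_ ?_ ?_ P hP0
  · intro i
    rw [coeff_sub, coeff_X_pow, coeff_C, map_sub]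
    refine le_trans (v.map_sub _ _) ?_
    apply max_le
    · split_ifs <;> simp
    · split_ifs
      · exact le_of_eq hgh
      · simp
  · rw [map_sub, map_pow, aeval_X, aeval_C, hθn, sub_self]
  · rw [derivative_sub, derivative_X_pow, derivative_C, sub_zero, map_mul, map_pow, aeval_X,
      map_mul, map_pow, hvθ, one_pow, mul_one, aeval_C, ← map_natCast (algebraMap k K) n,
      ← IsScalarTower.algebraMap_apply]
    exact hv.1 _ (by exact_mod_cast hn)

end B

end Pool.Agent.Helper36
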