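import Mathlib
import Pool.Agent.Helper36.UnramLemmas

namespace Pool.Agent.Helper36

open Polynomial IntermediateField

variable {k K Ω : Type*} [Field k] [Field K] [Field Ω] [Algebra k K] [Algebra K Ω] [Algebra k Ω]
  [IsScalarTower k K Ω]

lemma le_univCover (L : IntermediateField K Ω) (h1 : FiniteDimensional K L)
    (h2 : UnramifiedEverywhere k K L) : L ≤ univCover k K Ω :=
  le_iSup (fun L : {L : IntermediateField K Ω //
    FiniteDimensional K L ∧ UnramifiedEverywhere k K L} => (L : IntermediateField K Ω))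
    ⟨L, h1, h2⟩

instance towerInst (L : IntermediateField K Ω) : IsScalarTower k L Ω :=
  IsScalarTower.of_algebraMap_eq (fun _ => rfl)

instance towerInst2 (L : IntermediateField K Ω) : IsScalarTower k K L :=
  IsScalarTower.of_algebraMap_eq (fun c => Subtype.ext (IsScalarTower.algebraMap_apply k K Ω c))

lemma adjoin_gen_top (x : Ω) : K⟮AdjoinSimple.gen K x⟯ = ⊤ := by
  apply lift_injective
  rw [lift_adjoin_simple, lift_top]
  rfl

/-- The algebraic closure of `k` in `Ω` is contained in `univCover`. -/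
theorem algebraic_mem_univCover [CharZero k] [Algebra.IsAlgebraic K Ω] {x : Ω}
    (hx : IsAlgebraic k x) : x ∈ univCover k K Ω := by
  have hxK : IsAlgebraic K x := Algebra.IsAlgebraic.isAlgebraic x
  have h1 : FiniteDimensional K K⟮x⟯ := adjoin.finiteDimensional hxK.isIntegral
  refine le_univCover (k := k) K⟮x⟯ h1 ?_ (mem_adjoin_simple_self K x)
  intro v hv l
  have h2 : IsAlgebraic k (AdjoinSimple.gen K x) := by
    have : IsAlgebraic k (algebraMap K⟮x⟯ Ω (AdjoinSimple.gen K x)) := by
      rw [AdjoinSimple.algebraMap_gen]; exact hx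
    exact (isAlgebraic_algebraMap_iff (algebraMap K⟮x⟯ Ω).injective).mp this
  exact val_const (K := K) hv h2 (z := l) (by rw [adjoin_gen_top]; exact mem_top)

/-- for a finite extension `k'` of `k` the compositum `K k'` is generated by one element
algebraic over `k` -/
lemma exists_gen [CharZero k] (k' : IntermediateField k Ω) [FiniteDimensional k k'] :
    ∃ θ : Ω, IsAlgebraic k θ ∧ θ ∈ k' ∧ adjoin K (k' : Set Ω) = K⟮θ⟯ := by
  obtain ⟨α, hα⟩ := Field.exists_primitive_element k k'
  have h1 : k⟮(α : Ω)⟯ = k' := by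
    rw [← lift_adjoin_simple, hα, lift_top]
  refine ⟨(α : Ω), ?_, α.2, ?_⟩
  · exact (isAlgebraic_algebraMap_iff (algebraMap k' Ω).injective).mpr
      (Algebra.IsAlgebraic.isAlgebraic α)
  · have h2 : adjoin K (k⟮(α : Ω)⟯ : Set Ω) = K⟮(α : Ω)⟯ := adjoin_adjoin_right _ _
    rw [← h2]
    congr 1
    rw [h1]

/-- Kummer extensions of `K k'` by functions with divisor divisible by `n` lie in `univCover`. -/
theorem kummer_mem_univCover [CharZero k] [Algebra.IsAlgebraic K Ω]
    (k' : IntermediateField k Ω) [FiniteDimensional k k'] {n : ℕ} (hn : n ≠ 0)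
    (g : adjoin K (k' : Set Ω)) (hg : g ≠ 0)
    (hdiv : ∀ v : Valuation (adjoin K (k' : Set Ω)) (WithZero (Multiplicative ℤ)), IsPlace k v →
      ∃ h : adjoin K (k' : Set Ω), v g = v h ^ n)
    (γ : Ω) (hγ : γ ^ n = (g : Ω)) : γ ∈ univCover k K Ω := by
  obtain ⟨θ, hθk, hθk', hadj⟩ := exists_gen (K := K) k'
  set K1 := adjoin K (k' : Set Ω) with hK1
  let M : IntermediateField K1 Ω := K1⟮γ⟯
  let L : IntermediateField K Ω := M.restrictScalars K
  have hKθ : IsAlgebraic K θ := Algebra.IsAlgebraic.isAlgebraic θ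
  have hfin1 : FiniteDimensional K K1 := by
    rw [hadj]; exact adjoin.finiteDimensional hKθ.isIntegral
  have hγalg : IsAlgebraic K1 γ := by
    have : IsAlgebraic K γ := Algebra.IsAlgebraic.isAlgebraic γ
    exact this.tower_top K1
  have hfin2 : FiniteDimensional K1 M := adjoin.finiteDimensional hγalg.isIntegral
  have hfin3 : FiniteDimensional K M := FiniteDimensional.trans K K1 M
  have hfin4 : FiniteDimensional K L := hfin3
  refine le_univCover (k := k) L hfin4 ?_ (mem_adjoin_simple_self K1 γ)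
  intro v hv l
  let e : M →+* L :=
    { toFun := fun x => ⟨(x : Ω), x.2⟩
      map_one' := rfl
      map_mul' := fun _ _ => rfl
      map_zero' := rfl
      map_add' := fun _ _ => rfl }
  let w : Valuation M (WithZero (Multiplicative ℤ)) := v.comap e
  have hw : IsPlace k w := by
    refine ⟨?_, ?_⟩
    · intro c hc
      exact hv.1 c hc
    · obtain ⟨x, hx0, hx1⟩ := hv.2
      refine ⟨⟨(x : Ω), x.2⟩, ?_, hx1⟩
      intro h
      apply hx0
      apply Subtype.ext
      exact congrArg Subtype.val h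
  have halg : Algebra.IsAlgebraic K1 M := inferInstance
  have halg2 : Algebra.IsAlgebraic K M := inferInstance
  -- step 1
  have h1 : ∀ z : M, ∃ y : K1, w (algebraMap K1 M y) = w z := by
    intro z
    obtain ⟨h, hh⟩ := hdiv (w.comap (algebraMap K1 M)) (IsPlace.comap hw)
    refine val_kummer (k := k) hw hn hg (γ := AdjoinSimple.gen K1 γ) ?_ ⟨h, hh⟩ ?_
    · apply Subtype.ext
      exact hγ
    · rw [adjoin_gen_top]; exact mem_top
  -- step 2
  have h2 : ∀ y : K1, ∃ x : K, w (algebraMap K M x) = w (algebraMap K1 M y) := by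
    intro y
    have hθM : (θ : Ω) ∈ M := by
      have : θ ∈ K1 := by rw [hadj]; exact mem_adjoin_simple_self K θ
      exact (algebraMap K1 M ⟨θ, this⟩).2
    have halgθ : IsAlgebraic k (⟨θ, hθM⟩ : M) := by
      exact (isAlgebraic_algebraMap_iff (algebraMap M Ω).injective).mp hθk
    have htow : IsScalarTower k K M := IsScalarTower.of_algebraMap_eq
      (fun c => Subtype.ext (IsScalarTower.algebraMap_apply k K Ω c))
    refine val_const (K := K) hw halgθ (z := algebraMap K1 M y) ?_
    -- y in K⟮θ⟯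
    have hy : (y : Ω) ∈ K⟮θ⟯ := by
      rw [← hadj]; exact y.2
    have hmap : (K⟮(⟨θ, hθM⟩ : M)⟯).map (IsScalarTower.toAlgHom K M Ω) = K⟮θ⟯ := by
      rw [adjoin_map]
      congr 1
      simp
    rw [← hmap] at hy
    obtain ⟨z, hz, hzy⟩ := hy
    have : z = algebraMap K1 M y := by
      apply Subtype.ext
      exact hzy
    rw [← this]
    exact hz
  obtain ⟨y, hy⟩ := h1 ⟨(l : Ω), l.2⟩
  obtain ⟨x, hx⟩ := h2 y
  refine ⟨x, ?_⟩
  have h3 : w (algebraMap K M x) = v (algebraMap K L x) := rfl
  have h4 : w ⟨(l : Ω), l.2⟩ = v l := rfl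
  rw [← h3, ← h4, ← hy, hx]

end Pool.Agent.Helper36
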