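import Mathlib
import Pool.Agent.Helper36.UnivCover
import Pool.Agent.Helper36.NormArg

namespace Pool.Agent.Helper36

open Polynomial IntermediateField

variable {k K Ω : Type*} [Field k] [Field K] [Field Ω] [Algebra k K] [Algebra K Ω] [Algebra k Ω]
  [IsScalarTower k K Ω] [CharZero k] [Algebra.IsAlgebraic K Ω]

lemma mem_univCover_of_mem_closure (x : algebraicClosure k Ω) :
    (x : Ω) ∈ univCover k K Ω :=
  algebraic_mem_univCover (mem_algebraicClosure_iff.mp x.2)

/-- inclusion of the algebraic closure of `k` in `univCover` -/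
noncomputable def incl (k K Ω : Type*) [Field k] [Field K] [Field Ω] [Algebra k K] [Algebra K Ω]
    [Algebra k Ω] [IsScalarTower k K Ω] [CharZero k] [Algebra.IsAlgebraic K Ω] :
    algebraicClosure k Ω →+* univCover k K Ω where
  toFun x := ⟨(x : Ω), mem_univCover_of_mem_closure x⟩
  map_one' := rfl
  map_mul' _ _ := rfl
  map_zero' := rfl
  map_add' _ _ := rfl

/-- the action on the function field of the universal cover -/
noncomputable def SectionData.act (s : SectionData k K Ω) :
    (algebraicClosure k Ω ≃ₐ[k] algebraicClosure k Ω) →* (univCover k K Ω ≃+* univCover k K Ω) where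
  toFun σ := (s.hom σ).toRingEquiv
  map_one' := by rw [map_one]; rfl
  map_mul' _ _ := by rw [map_mul]; rfl

lemma act_incl (s : SectionData k K Ω) (σ) (x : algebraicClosure k Ω) :
    s.act σ (incl k K Ω x) = incl k K Ω (σ x) :=
  Subtype.ext (s.isSection σ (incl k K Ω x) x.2)

lemma act_cont (s : SectionData k K Ω) (x : univCover k K Ω) :
    ∃ F : IntermediateField k (algebraicClosure k Ω), FiniteDimensional k F ∧
      ∀ τ ∈ F.fixingSubgroup, s.act τ x = x := by
  have h1 : IsOpen ((MulAction.stabilizer (univCover k K Ω ≃ₐ[K] univCover k K Ω) x :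
      Subgroup _) : Set (univCover k K Ω ≃ₐ[K] univCover k K Ω)) :=
    stabilizer_isOpen_of_isIntegral x
  have h2 := h1.preimage s.cont
  have h3 : (s.hom ⁻¹' ((MulAction.stabilizer (univCover k K Ω ≃ₐ[K] univCover k K Ω) x :
      Subgroup _) : Set (univCover k K Ω ≃ₐ[K] univCover k K Ω))) ∈ nhds 1 := by
    apply h2.mem_nhds
    rw [Set.mem_preimage, map_one]
    exact one_mem _
  rw [krullTopology_mem_nhds_one_iff] at h3
  obtain ⟨F, hF, hFx⟩ := h3
  exact ⟨F, hF, fun τ hτ => hFx hτ⟩

lemma incl_pow (z : univCover k K Ω) (n : ℕ) (hn : n ≠ 0) (h : z ^ n ∈ Set.range (incl k K Ω)) :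
    z ∈ Set.range (incl k K Ω) := by
  obtain ⟨x, hx⟩ := h
  have h1 : IsAlgebraic k ((z : Ω) ^ n) := by
    have : (z : Ω) ^ n = (x : Ω) := congrArg Subtype.val hx.symm
    rw [this]
    exact mem_algebraicClosure_iff.mp x.2
  have h2 : IsAlgebraic k (z : Ω) := h1.of_pow (Nat.pos_of_ne_zero hn)
  exact ⟨⟨(z : Ω), mem_algebraicClosure_iff.mpr h2⟩, rfl⟩

/-- a finite extension of `k` inside `Ω`, seen in the algebraic closure of `k` -/
noncomputable def toClosure (k' : IntermediateField k Ω) [FiniteDimensional k k'] :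
    IntermediateField k (algebraicClosure k Ω) :=
  restrict (le_algebraicClosure k Ω k')

lemma mem_toClosure {k' : IntermediateField k Ω} [FiniteDimensional k k']
    {x : algebraicClosure k Ω} : x ∈ toClosure k' ↔ (x : Ω) ∈ k' :=
  mem_restrict _ x

/-- the identity, as an isomorphism -/
noncomputable def toClosureEquiv (k' : IntermediateField k Ω) [FiniteDimensional k k'] :
    k' ≃ₐ[k] toClosure k' :=
  restrictAlgEquiv (le_algebraicClosure k Ω k')

instance (k' : IntermediateField k Ω) [FiniteDimensional k k'] :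
    FiniteDimensional k (toClosure k') :=
  (restrictAlgEquiv (le_algebraicClosure k Ω k')).toLinearEquiv.finiteDimensional

lemma le_univCover' (k' : IntermediateField k Ω) [FiniteDimensional k k'] :
    adjoin K (k' : Set Ω) ≤ univCover k K Ω := by
  rw [adjoin_le_iff]
  intro x hx
  exact mem_univCover_of_mem_closure ⟨x, le_algebraicClosure k Ω k' hx⟩

section Galois

variable [IsAlgClosed Ω]

instance isGalois_closure (k Ω : Type*) [Field k] [Field Ω] [Algebra k Ω] [CharZero k]
    [IsAlgClosed Ω] : IsGalois k (algebraicClosure k Ω) := by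
  have h1 : IsAlgClosure k (algebraicClosure k Ω) := inferInstance
  have h2 : Normal k (algebraicClosure k Ω) := IsAlgClosure.normal k _
  have h3 : Algebra.IsSeparable k (algebraicClosure k Ω) := inferInstance
  exact { }

instance isAlgClosed_closure (k Ω : Type*) [Field k] [Field Ω] [Algebra k Ω]
    [IsAlgClosed Ω] : IsAlgClosed (algebraicClosure k Ω) :=
  IsAlgClosure.isAlgClosed k

/-- the embedding of `K k'` attached to an embedding of `k'` -/
noncomputable def embOf (s : SectionData k K Ω) (k' : IntermediateField k Ω)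
    [FiniteDimensional k k'] (φ : toClosure k' →ₐ[k] algebraicClosure k Ω) :
    adjoin K (k' : Set Ω) →ₐ[K] Ω :=
  (univCover k K Ω).val.comp
    (((s.hom (liftEmb (toClosure k') φ) : univCover k K Ω ≃ₐ[K] univCover k K Ω) :
      univCover k K Ω →ₐ[K] univCover k K Ω).comp (inclusion (le_univCover' k')))

lemma embOf_apply (s : SectionData k K Ω) (k' : IntermediateField k Ω)
    [FiniteDimensional k k'] (φ : toClosure k' →ₐ[k] algebraicClosure k Ω)
    (x : adjoin K (k' : Set Ω)) :
    embOf s k' φ x = ((s.act (liftEmb (toClosure k') φ) (inclusion (le_univCover' k') x) :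
      univCover k K Ω) : Ω) := rfl

lemma embOf_const (s : SectionData k K Ω) (k' : IntermediateField k Ω)
    [FiniteDimensional k k'] (φ : toClosure k' →ₐ[k] algebraicClosure k Ω)
    (x : Ω) (hx : x ∈ k') :
    embOf s k' φ ⟨x, subset_adjoin K _ hx⟩ =
      (φ ⟨⟨x, le_algebraicClosure k Ω k' hx⟩, mem_toClosure.mpr hx⟩ : Ω) := by
  rw [embOf_apply]
  have h1 : inclusion (le_univCover' (K := K) k') ⟨x, subset_adjoin K _ hx⟩ =
    incl k K Ω ⟨x, le_algebraicClosure k Ω k' hx⟩ := rfl
  rw [h1, act_incl]
  have h2 := liftEmb_apply (toClosure k') φ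
    ⟨⟨x, le_algebraicClosure k Ω k' hx⟩, mem_toClosure.mpr hx⟩
  exact congrArg Subtype.val h2

lemma embOf_bijective (s : SectionData k K Ω) (k' : IntermediateField k Ω)
    [FiniteDimensional k k'] : Function.Bijective (embOf s k') := by
  constructor
  · intro φ ψ h
    ext y
    have hy : ((y : algebraicClosure k Ω) : Ω) ∈ k' := mem_toClosure.mp y.2
    have h1 := embOf_const s k' φ _ hy
    have h2 := embOf_const s k' ψ _ hy
    rw [← h] at h2
    exact h1.symm.trans h2
  · intro ψ
    have halg : ∀ x : Ω, (hx : x ∈ k') → ψ ⟨x, subset_adjoin K _ hx⟩ ∈ algebraicClosure k Ω := by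
      intro x hx
      rw [mem_algebraicClosure_iff]
      have h1 : IsAlgebraic k x := (isAlgebraic_algebraMap_iff (algebraMap k' Ω).injective).mpr
        (Algebra.IsAlgebraic.isAlgebraic (⟨x, hx⟩ : k'))
      have h2 : IsAlgebraic k (⟨x, subset_adjoin K _ hx⟩ : adjoin K (k' : Set Ω)) :=
        (isAlgebraic_algebraMap_iff (algebraMap (adjoin K (k' : Set Ω)) Ω).injective).mp h1
      exact IsAlgebraic.algHom (ψ.restrictScalars k) h2
    let φ : toClosure k' →ₐ[k] algebraicClosure k Ω :=
      { toFun := fun y => ⟨ψ ⟨((y : algebraicClosure k Ω) : Ω),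
          subset_adjoin K _ (mem_toClosure.mp y.2)⟩, halg _ (mem_toClosure.mp y.2)⟩
        map_one' := Subtype.ext (map_one ψ)
        map_mul' := fun x y => Subtype.ext (map_mul ψ ⟨((x : algebraicClosure k Ω) : Ω),
          subset_adjoin K _ (mem_toClosure.mp x.2)⟩ ⟨((y : algebraicClosure k Ω) : Ω),
          subset_adjoin K _ (mem_toClosure.mp y.2)⟩)
        map_zero' := Subtype.ext (map_zero ψ)
        map_add' := fun x y => Subtype.ext (map_add ψ ⟨((x : algebraicClosure k Ω) : Ω),
          subset_adjoin K _ (mem_toClosure.mp x.2)⟩ ⟨((y : algebraicClosure k Ω) : Ω),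
          subset_adjoin K _ (mem_toClosure.mp y.2)⟩)
        commutes' := fun c => Subtype.ext ((ψ.restrictScalars k).commutes c) }
    refine ⟨φ, ?_⟩
    apply adjoin_algHom_ext
    intro x hx
    rw [embOf_const s k' φ x hx]
    rfl

/-- `K k'`-elements are fixed by automorphisms coming from the fixer of `k'` -/
lemma act_fix (s : SectionData k K Ω) (k' : IntermediateField k Ω)
    [FiniteDimensional k k'] (τ) (hτ : τ ∈ (toClosure k').fixingSubgroup)
    (x : adjoin K (k' : Set Ω)) :
    s.act τ (inclusion (le_univCover' k') x) = inclusion (le_univCover' k') x := by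
  have h : ((s.hom τ : univCover k K Ω ≃ₐ[K] univCover k K Ω) :
      univCover k K Ω →ₐ[K] univCover k K Ω).comp (inclusion (le_univCover' k')) =
      inclusion (le_univCover' k') := by
    apply adjoin_algHom_ext
    intro y hy
    have h1 : inclusion (le_univCover' (K := K) k') ⟨y, subset_adjoin K _ hy⟩ =
      incl k K Ω ⟨y, le_algebraicClosure k Ω k' hy⟩ := rfl
    show s.act τ (inclusion (le_univCover' k') ⟨y, subset_adjoin K _ hy⟩) = _
    rw [h1, act_incl]
    congr 1
    rw [IntermediateField.mem_fixingSubgroup_iff] at hτ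
    exact hτ _ (mem_toClosure.mpr hy)
  exact DFunLike.congr_fun h x

end Galois

end Pool.Agent.Helper36
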