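import Mathlib
import Pool.Agent.Helper36.SecMain

namespace Pool.Agent.Helper36

open Polynomial IntermediateField

variable {k K Ω : Type*} [Field k] [Field K] [Field Ω] [Algebra k K] [Algebra K Ω] [Algebra k Ω]
  [IsScalarTower k K Ω] [CharZero k] [Algebra.IsAlgebraic K Ω] [IsAlgClosed Ω]

lemma finDim_adjoin (k' : IntermediateField k Ω) [FiniteDimensional k k'] :
    FiniteDimensional K (adjoin K (k' : Set Ω)) := by
  obtain ⟨θ, _, _, hadj⟩ := exists_gen (K := K) k'
  rw [hadj]
  exact adjoin.finiteDimensional (Algebra.IsAlgebraic.isAlgebraic (R := K) θ).isIntegral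

lemma charZero_K (k K : Type*) [Field k] [Field K] [Algebra k K] [CharZero k] : CharZero K :=
  charZero_of_injective_algebraMap (algebraMap k K).injective

/-- the norm of `K k' / K` as a product of conjugates -/
lemma norm_eq_prod_conj (s : SectionData k K Ω) (k' : IntermediateField k Ω)
    [FiniteDimensional k k'] (x : adjoin K (k' : Set Ω)) :
    algebraMap K (univCover k K Ω) (Algebra.norm K x) =
      ∏ φ : toClosure k' →ₐ[k] algebraicClosure k Ω,
        conj s.act (toClosure k') (inclusion (le_univCover' k') x) φ := by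
  have := finDim_adjoin (K := K) k'
  have := charZero_K k K
  apply (algebraMap (univCover k K Ω) Ω).injective
  rw [← IsScalarTower.algebraMap_apply, Algebra.norm_eq_prod_embeddings K Ω, map_prod]
  symm
  exact Fintype.prod_bijective (embOf s k') (embOf_bijective s k') _ _ (fun φ => rfl)


omit [IsAlgClosed Ω] in
lemma incl_algebraMap (c : k) : incl k K Ω (algebraMap k (algebraicClosure k Ω) c) =
    algebraMap k (univCover k K Ω) c := Subtype.ext rfl

lemma exists_root (k' : IntermediateField k Ω) [FiniteDimensional k k'] {n : ℕ} (hn : n ≠ 0)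
    (g : adjoin K (k' : Set Ω)) (hg : g ≠ 0)
    (hdiv : ∀ v : Valuation (adjoin K (k' : Set Ω)) (WithZero (Multiplicative ℤ)),
      IsPlace k v → ∃ h : adjoin K (k' : Set Ω), v g = v h ^ n) :
    ∃ γ : univCover k K Ω, γ ≠ 0 ∧ γ ^ n = inclusion (le_univCover' k') g := by
  obtain ⟨γ, hγ⟩ := IsAlgClosed.exists_pow_nat_eq (g : Ω) (Nat.pos_of_ne_zero hn)
  have hmem := kummer_mem_univCover k' hn g hg hdiv γ hγ
  refine ⟨⟨γ, hmem⟩, ?_, ?_⟩
  · intro h0
    have h1 : γ = 0 := congrArg Subtype.val h0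
    rw [h1, zero_pow hn] at hγ
    apply hg
    apply (algebraMap (adjoin K (k' : Set Ω)) Ω).injective
    rw [map_zero]
    exact hγ.symm
  · apply (algebraMap (univCover k K Ω) Ω).injective
    rw [map_pow]
    exact hγ

lemma act_alg (s : SectionData k K Ω) (τ) (y : K) :
    s.act τ (algebraMap K (univCover k K Ω) y) = algebraMap K (univCover k K Ω) y :=
  (s.hom τ).commutes y

lemma norm_toClosure (k' : IntermediateField k Ω) [FiniteDimensional k k'] (δ : toClosure k') :
    Algebra.norm k ((toClosureEquiv k').symm δ) = Algebra.norm k δ :=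
  Algebra.norm_eq_of_algEquiv (toClosureEquiv k').symm δ

/-- A version of the norm obstruction with conjugates. -/
theorem norm_obstruction_conj (s : SectionData k K Ω) {I : Type*} [Fintype I]
    (k' : I → IntermediateField k Ω) [∀ i, FiniteDimensional k (k' i)] {n : ℕ} (hn : n ≠ 0)
    (g : ∀ i, adjoin K (k' i : Set Ω)) (hg : ∀ i, g i ≠ 0)
    (hdiv : ∀ i, ∀ v : Valuation (adjoin K (k' i : Set Ω)) (WithZero (Multiplicative ℤ)),
      IsPlace k v → ∃ h : adjoin K (k' i : Set Ω), v (g i) = v h ^ n)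
    (e : I → ℤ) (c : k) (hc : c ≠ 0) (y : K)
    (hcy : algebraMap k (univCover k K Ω) c *
      ∏ i, (∏ φ : toClosure (k' i) →ₐ[k] algebraicClosure k Ω,
        conj s.act (toClosure (k' i)) (inclusion (le_univCover' (k' i)) (g i)) φ) ^ e i =
      algebraMap K (univCover k K Ω) y ^ n) :
    ∃ u : k, u ≠ 0 ∧ ∃ δ : ∀ i, k' i, (∀ i, δ i ≠ 0) ∧
      c * ∏ i, (Algebra.norm k (δ i)) ^ (e i) = u ^ n := by
  choose γ hγ0 hγ using fun i => exists_root (k' i) hn (g i) (hg i) (hdiv i)
  obtain ⟨u, hu, δ, hδ, hcδ⟩ := norm_arg (ι := incl k K Ω) (ρ := s.act) (act_incl s) (act_cont s)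
    (fun z n hn h => incl_pow z n hn h) (fun i => toClosure (k' i)) hn γ hγ0
    (by
      intro i τ hτ
      rw [hγ i]
      exact act_fix s (k' i) τ hτ (g i)) e c hc (algebraMap K (univCover k K Ω) y)
    (by
      intro τ
      exact act_alg s τ y)
    (by
      rw [← hcy, incl_algebraMap]
      congr 1
      apply Finset.prod_congr rfl
      intro i _
      rw [hγ i])
  refine ⟨u, hu, fun i => (toClosureEquiv (k' i)).symm (δ i), ?_, ?_⟩
  · intro i h0
    exact hδ i ((map_eq_zero_iff _ (toClosureEquiv (k' i)).symm.injective).mp h0)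
  · rw [← hcδ]
    congr 1
    apply Finset.prod_congr rfl
    intro i _
    congr 1
    exact norm_toClosure (k' i) (δ i)

/-- The norm obstruction. -/
theorem norm_obstruction (s : SectionData k K Ω) {I : Type*} [Fintype I]
    (k' : I → IntermediateField k Ω) [∀ i, FiniteDimensional k (k' i)] {n : ℕ} (hn : n ≠ 0)
    (g : ∀ i, adjoin K (k' i : Set Ω)) (hg : ∀ i, g i ≠ 0)
    (hdiv : ∀ i, ∀ v : Valuation (adjoin K (k' i : Set Ω)) (WithZero (Multiplicative ℤ)),
      IsPlace k v → ∃ h : adjoin K (k' i : Set Ω), v (g i) = v h ^ n)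
    (e : I → ℤ) (c : k) (hc : c ≠ 0) (y : K)
    (hcy : algebraMap k K c * ∏ i, (Algebra.norm K (g i)) ^ e i = y ^ n) :
    ∃ u : k, u ≠ 0 ∧ ∃ δ : ∀ i, k' i, (∀ i, δ i ≠ 0) ∧
      c * ∏ i, (Algebra.norm k (δ i)) ^ (e i) = u ^ n := by
  refine norm_obstruction_conj s k' hn g hg hdiv e c hc y ?_
  rw [← map_pow, ← hcy, map_mul, map_prod, ← IsScalarTower.algebraMap_apply]
  congr 1
  apply Finset.prod_congr rfl
  intro i _
  rw [map_zpow₀, norm_eq_prod_conj]

end Pool.Agent.Helper36
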