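import Mathlib
import Pool.Agent.Helper36.SecNames
import Pool.Agent.Helper36.SecThm

namespace Pool.Agent.Helper36

open IntermediateField

variable {k K Ω : Type*} [Field k] [Field K] [Field Ω] [Algebra k K] [Algebra K Ω] [Algebra k Ω]
  [IsScalarTower k K Ω]

/-- unfolding of the short names -/
noncomputable def PiOneSection.toData (s : PiOneSection k K Ω) : SectionData k K Ω where
  hom := s.hom
  cont := s.cont
  isSection σ x hx := s.isLift σ x ⟨(x : Ω), hx⟩ rfl

end Pool.Agent.Helper36
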