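import Mathlib
import Pool.Agent.Helper36.SecThm

namespace Pool.Agent.Helper36

open Polynomial IntermediateField

lemma eq_one_of_mul {a b : Zm0} (ha : a ≤ 1) (hb : b ≤ 1) (h : a * b = 1) : a = 1 ∧ b = 1 := by
  have h1 : a = 1 := by
    apply le_antisymm ha
    calc (1 : Zm0) = a * b := h.symm
      _ ≤ a * 1 := mul_le_mul_right hb a
      _ = a := mul_one a
  refine ⟨h1, ?_⟩
  rwa [h1, one_mul] at h

section ValPoly

variable {k' L : Type*} [Field k'] [Field L] (j : k' →+* L)

/-- value of a polynomial with unit coefficients at a pole -/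
lemma val_eval_of_one_lt {v : Valuation L Zm0} (hv : ∀ a : k', a ≠ 0 → v (j a) = 1) {x : L}
    (hx : 1 < v x) {f : k'[X]} (hf : f ≠ 0) : v (f.eval₂ j x) = v x ^ f.natDegree := by
  have hx0 : v x ≠ 0 := ne_of_gt (lt_trans zero_lt_one hx)
  rw [eval₂_eq_sum_range, Finset.sum_range_succ]
  have hlead : v (j (f.coeff f.natDegree) * x ^ f.natDegree) = v x ^ f.natDegree := by
    rw [map_mul, coeff_natDegree, hv _ (leadingCoeff_ne_zero.mpr hf), one_mul, map_pow]
  have hlt : v (∑ i ∈ Finset.range f.natDegree, j (f.coeff i) * x ^ i) < v x ^ f.natDegree := by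
    apply v.map_sum_lt (pow_ne_zero _ hx0)
    intro i hi
    rw [Finset.mem_range] at hi
    rw [map_mul, map_pow]
    have h1 : v (j (f.coeff i)) ≤ 1 := by
      by_cases h : f.coeff i = 0
      · rw [h]; simp
      · exact le_of_eq (hv _ h)
    exact mul_lt_of_le_one_of_lt h1 (pow_lt_pow_right₀ hx hi)
  rw [← hlead] at hlt
  rw [v.map_add_eq_of_lt_right hlt, hlead]

lemma val_eval_le_one {v : Valuation L Zm0} (hv : ∀ a : k', a ≠ 0 → v (j a) = 1) {x : L}
    (hx : v x ≤ 1) (f : k'[X]) : v (f.eval₂ j x) ≤ 1 := by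
  rw [eval₂_eq_sum_range]
  apply v.map_sum_le
  intro i _
  rw [map_mul, map_pow]
  have h1 : v (j (f.coeff i)) ≤ 1 := by
    by_cases h : f.coeff i = 0
    · rw [h]; simp
    · exact le_of_eq (hv _ h)
  exact mul_le_one' h1 (pow_le_one' hx i)

/-- divisibility of the valuation of `f(x)` -/
lemma div_of_coprime {v : Valuation L Zm0} (hv : ∀ a : k', a ≠ 0 → v (j a) = 1) {x y : L}
    {f H : k'[X]} (hf : f ≠ 0) (hfH : IsCoprime f H) {n : ℕ} (hfn : n ∣ f.natDegree)
    (hfx : f.eval₂ j x ≠ 0)
    {e : ℤ} (he : IsCoprime e (n : ℤ))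
    (hval : v x ≤ 1 → v (H.eval₂ j x) = 1 → v y ^ n = v (f.eval₂ j x) ^ e) :
    ∃ h : L, v (f.eval₂ j x) = v h ^ n := by
  rcases le_or_gt (v x) 1 with hx | hx
  · obtain ⟨a, b, hab⟩ := hfH
    have h1 : a.eval₂ j x * f.eval₂ j x + b.eval₂ j x * H.eval₂ j x = 1 := by
      rw [← eval₂_mul, ← eval₂_mul, ← eval₂_add, hab, eval₂_one]
    by_cases hf1 : v (f.eval₂ j x) = 1
    · exact ⟨1, by rw [hf1]; simp⟩
    · have hH : v (H.eval₂ j x) = 1 := by
        by_contra hH1
        have hflt := lt_of_le_of_ne (val_eval_le_one j hv hx f) hf1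
        have hHlt := lt_of_le_of_ne (val_eval_le_one j hv hx H) hH1
        have h2 : v (a.eval₂ j x * f.eval₂ j x) < 1 := by
          rw [map_mul]
          exact mul_lt_of_le_one_of_lt (val_eval_le_one j hv hx a) hflt
        have h3 : v (b.eval₂ j x * H.eval₂ j x) < 1 := by
          rw [map_mul]
          exact mul_lt_of_le_one_of_lt (val_eval_le_one j hv hx b) hHlt
        have h4 := v.map_add_lt h2 h3
        rw [h1, map_one] at h4
        exact lt_irrefl _ h4
      have h5 := hval hx hH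
      obtain ⟨r, t, hrt⟩ := he
      have hvf : v (f.eval₂ j x) ≠ 0 := by rwa [Valuation.ne_zero_iff]
      refine ⟨y ^ r * (f.eval₂ j x) ^ t, ?_⟩
      rw [map_mul, map_zpow₀, map_zpow₀]
      calc v (f.eval₂ j x) = v (f.eval₂ j x) ^ (r * e + t * (n : ℤ)) := by rw [hrt, zpow_one]
        _ = (v (f.eval₂ j x) ^ e) ^ r * (v (f.eval₂ j x) ^ t) ^ n := by
            rw [zpow_add₀ hvf, mul_comm r e, zpow_mul, zpow_mul, zpow_natCast]
        _ = (v y ^ n) ^ r * (v (f.eval₂ j x) ^ t) ^ n := by rw [h5]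
        _ = (v y ^ r * v (f.eval₂ j x) ^ t) ^ n := by
            rw [mul_pow, ← zpow_natCast (v y), ← zpow_natCast (v y ^ r), ← zpow_mul, ← zpow_mul,
              mul_comm r]
  · obtain ⟨d, hd⟩ := hfn
    refine ⟨x ^ d, ?_⟩
    rw [val_eval_of_one_lt j hv hx hf, hd, map_pow, ← pow_mul, mul_comm]

end ValPoly

variable {k K Ω : Type*} [Field k] [Field K] [Field Ω] [Algebra k K] [Algebra K Ω] [Algebra k Ω]
  [IsScalarTower k K Ω]

/-- inclusion of constants -/
def constMap (K : Type*) {k Ω : Type*} [Field k] [Field K] [Field Ω] [Algebra K Ω] [Algebra k Ω]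
    (k' : IntermediateField k Ω) : k' →+* adjoin K (k' : Set Ω) where
  toFun a := ⟨(a : Ω), subset_adjoin K _ a.2⟩
  map_one' := rfl
  map_mul' _ _ := rfl
  map_zero' := rfl
  map_add' _ _ := rfl

section

variable [CharZero k] [Algebra.IsAlgebraic K Ω] [IsAlgClosed Ω]

/-- embeddings into `Ω` are embeddings into the algebraic closure of `k` -/
noncomputable def embEquiv (k' : IntermediateField k Ω) [FiniteDimensional k k']
    (φ : toClosure k' →ₐ[k] algebraicClosure k Ω) : k' →ₐ[k] Ω :=
  ((algebraicClosure k Ω).val.comp φ).comp (toClosureEquiv k' : k' →ₐ[k] toClosure k')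

lemma embEquiv_bijective (k' : IntermediateField k Ω) [FiniteDimensional k k'] :
    Function.Bijective (embEquiv k') := by
  rw [Fintype.bijective_iff_injective_and_card]
  constructor
  · intro φ ψ h
    ext y
    obtain ⟨z, rfl⟩ := (toClosureEquiv k').surjective y
    exact DFunLike.congr_fun h z
  · rw [AlgHom.card, AlgHom.card]
    exact (toClosureEquiv k').symm.toLinearEquiv.finrank_eq

lemma embOf_constMap (s : SectionData k K Ω) (k' : IntermediateField k Ω)
    [FiniteDimensional k k'] (φ : toClosure k' →ₐ[k] algebraicClosure k Ω) (a : k') :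
    embOf s k' φ (constMap K k' a) = embEquiv k' φ a :=
  embOf_const s k' φ a a.2

lemma prod_conj_eval (s : SectionData k K Ω) (k' : IntermediateField k Ω)
    [FiniteDimensional k k'] (f : k'[X]) (P : k[X])
    (hP : P.map (algebraMap k Ω) = ∏ φ : (k' →ₐ[k] Ω), f.map (φ : k' →+* Ω)) (x : K) :
    ∏ φ : toClosure k' →ₐ[k] algebraicClosure k Ω, conj s.act (toClosure k')
      (inclusion (le_univCover' k')
        (f.eval₂ (constMap K k') (algebraMap K (adjoin K (k' : Set Ω)) x))) φ =
      algebraMap K (univCover k K Ω) (aeval x P) := by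
  apply (algebraMap (univCover k K Ω) Ω).injective
  rw [map_prod, ← IsScalarTower.algebraMap_apply]
  have h1 : algebraMap K Ω (aeval x P) = (P.map (algebraMap k Ω)).eval (algebraMap K Ω x) := by
    rw [eval_map, ← aeval_def, aeval_algebraMap_apply]
  rw [h1, hP, eval_prod]
  refine Fintype.prod_bijective (embEquiv k') (embEquiv_bijective k') _ _ (fun φ => ?_)
  have h2 : algebraMap (univCover k K Ω) Ω (conj s.act (toClosure k')
      (inclusion (le_univCover' k')
        (f.eval₂ (constMap K k') (algebraMap K (adjoin K (k' : Set Ω)) x))) φ) =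
      embOf s k' φ (f.eval₂ (constMap K k') (algebraMap K (adjoin K (k' : Set Ω)) x)) := rfl
  rw [h2]
  have h3 := hom_eval₂ f (constMap K k') (embOf s k' φ : adjoin K (k' : Set Ω) →+* Ω)
    (algebraMap K (adjoin K (k' : Set Ω)) x)
  rw [AlgHom.coe_toRingHom] at h3
  rw [h3, eval_map, AlgHom.commutes]
  congr 1
  ext a
  exact embOf_constMap s k' φ a

lemma constMap_algebraMap (k' : IntermediateField k Ω) (a : k) :
    constMap K k' (algebraMap k k' a) = algebraMap k (adjoin K (k' : Set Ω)) a := rfl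

lemma val_constMap (k' : IntermediateField k Ω) [FiniteDimensional k k']
    {v : Valuation (adjoin K (k' : Set Ω)) Zm0} (hv : IsPlace k v) (a : k') (ha : a ≠ 0) :
    v (constMap K k' a) = 1 := by
  apply val_eq_one_of_algebraic hv.1
  · have h1 : IsAlgebraic k (a : Ω) := (isAlgebraic_algebraMap_iff (algebraMap k' Ω).injective).mpr
      (Algebra.IsAlgebraic.isAlgebraic a)
    exact (isAlgebraic_algebraMap_iff (algebraMap (adjoin K (k' : Set Ω)) Ω).injective).mp h1
  · rwa [ne_eq, map_eq_zero_iff _ (constMap K k').injective]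

lemma constMap_comp (k' : IntermediateField k Ω) :
    (constMap K k').comp (algebraMap k k') =
      (algebraMap K (adjoin K (k' : Set Ω))).comp (algebraMap k K) := by
  ext a
  show algebraMap k Ω a = algebraMap K Ω (algebraMap k K a)
  exact IsScalarTower.algebraMap_apply k K Ω a

lemma eval_constMap (k' : IntermediateField k Ω) (P : k[X]) (x : K) :
    (P.map (algebraMap k k')).eval₂ (constMap K k') (algebraMap K (adjoin K (k' : Set Ω)) x) =
      algebraMap K (adjoin K (k' : Set Ω)) (aeval x P) := by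
  rw [eval₂_map, constMap_comp, aeval_def, hom_eval₂]

lemma eval_ne_zero (k' : IntermediateField k Ω) (P : k[X]) (f h : k'[X])
    (hh : P.map (algebraMap k k') = f * h) (x : K) (hx : aeval x P ≠ 0) :
    f.eval₂ (constMap K k') (algebraMap K (adjoin K (k' : Set Ω)) x) ≠ 0 := by
  intro h0
  have h1 := eval_constMap k' P x
  rw [hh, eval₂_mul, h0, zero_mul] at h1
  apply hx
  apply (algebraMap K (adjoin K (k' : Set Ω))).injective
  rw [← h1, map_zero]

lemma exists_cofactor (k' : IntermediateField k Ω) [FiniteDimensional k k'] (P : k[X])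
    (f : k'[X])
    (hP : P.map (algebraMap k Ω) = ∏ φ : (k' →ₐ[k] Ω), f.map (φ : k' →+* Ω)) :
    ∃ h : k'[X], P.map (algebraMap k k') = f * h := by
  have h1 : f.map (algebraMap k' Ω) ∣ P.map (algebraMap k Ω) := by
    have h2 : (k'.val : k' →+* Ω) = algebraMap k' Ω := rfl
    have h3 := Finset.dvd_prod_of_mem (fun φ : (k' →ₐ[k] Ω) => f.map (φ : k' →+* Ω))
      (Finset.mem_univ (k'.val))
    rw [← hP] at h3
    rw [← h2]
    exact h3
  rw [IsScalarTower.algebraMap_eq k k' Ω, ← Polynomial.map_map,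
    Polynomial.map_dvd_map'] at h1
  exact h1

/-- Superelliptic curves: norm obstruction to sections. -/
theorem superelliptic_obstruction (s : SectionData k K Ω) {I : Type*} [Fintype I]
    (k' : I → IntermediateField k Ω) [∀ i, FiniteDimensional k (k' i)] {n : ℕ} (hn : n ≠ 0)
    (f : ∀ i, (k' i)[X]) (hf : ∀ i, n ∣ (f i).natDegree) (P : I → k[X])
    (hP : ∀ i, (P i).map (algebraMap k Ω) = ∏ φ : (k' i →ₐ[k] Ω), (f i).map (φ : k' i →+* Ω))
    (hsq : Squarefree (∏ i, P i)) (e : I → ℤ) (he : ∀ i, IsCoprime (e i) (n : ℤ))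
    (c : k) (hc : c ≠ 0) (x y : K) (hPx : ∀ i, aeval x (P i) ≠ 0)
    (hxy : algebraMap k K c * ∏ i, (aeval x (P i)) ^ e i = y ^ n) :
    ∃ u : k, u ≠ 0 ∧ ∃ δ : ∀ i, k' i, (∀ i, δ i ≠ 0) ∧
      c * ∏ i, (Algebra.norm k (δ i)) ^ (e i) = u ^ n := by
  classical
  choose h hh using fun i => exists_cofactor (k' i) (P i) (f i) (hP i)
  have hPev : ∀ i j, ((P j).map (algebraMap k (k' i))).eval₂ (constMap K (k' i))
      (algebraMap K (adjoin K (k' i : Set Ω)) x) =
      algebraMap K (adjoin K (k' i : Set Ω)) (aeval x (P j)) :=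
    fun i j => eval_constMap (k' i) (P j) x
  have hfx : ∀ i, (f i).eval₂ (constMap K (k' i)) (algebraMap K (adjoin K (k' i : Set Ω)) x) ≠ 0 :=
    fun i => eval_ne_zero (k' i) (P i) (f i) (h i) (hh i) x (hPx i)
  have hf0 : ∀ i, f i ≠ 0 := by
    intro i h0
    apply hfx i
    rw [h0, eval₂_zero]
  refine norm_obstruction_conj s k' hn
    (fun i => (f i).eval₂ (constMap K (k' i)) (algebraMap K (adjoin K (k' i : Set Ω)) x))
    hfx ?_ e c hc y ?_
  · intro i v hv
    have hsep : (∏ j, P j).Separable := by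
      rw [PerfectField.separable_iff_squarefree]
      exact hsq
    have hsep2 : (f i * (h i * ∏ j ∈ Finset.univ.erase i, (P j).map (algebraMap k (k' i)))).Separable := by
      have h2 := hsep.map (f := algebraMap k (k' i))
      rw [Polynomial.map_prod, ← Finset.mul_prod_erase Finset.univ _ (Finset.mem_univ i), hh i,
        mul_assoc] at h2
      exact h2
    refine div_of_coprime (constMap K (k' i)) (fun a ha => val_constMap (k' i) hv a ha)
      (y := algebraMap K (adjoin K (k' i : Set Ω)) y) (hf0 i) hsep2.isCoprime (hf i) (hfx i)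
      (he i) ?_
    intro hx hH
    have hle : ∀ F : (k' i)[X], v (F.eval₂ (constMap K (k' i))
        (algebraMap K (adjoin K (k' i : Set Ω)) x)) ≤ 1 :=
      fun F => val_eval_le_one (constMap K (k' i)) (fun a ha => val_constMap (k' i) hv a ha) hx F
    rw [eval₂_mul, map_mul, eval₂_finsetProd, map_prod] at hH
    have hprodle : ∏ j ∈ Finset.univ.erase i, v (((P j).map (algebraMap k (k' i))).eval₂
        (constMap K (k' i)) (algebraMap K (adjoin K (k' i : Set Ω)) x)) ≤ 1 :=
      Finset.prod_le_one' (fun j _ => hle _)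
    have h3 : v ((h i).eval₂ (constMap K (k' i))
        (algebraMap K (adjoin K (k' i : Set Ω)) x)) = 1 ∧
        ∏ j ∈ Finset.univ.erase i, v (((P j).map (algebraMap k (k' i))).eval₂
        (constMap K (k' i)) (algebraMap K (adjoin K (k' i : Set Ω)) x)) = 1 :=
      eq_one_of_mul (hle _) hprodle hH
    have h4 := (Finset.prod_eq_one_iff_of_le_one' (fun j _ => hle _)).mp h3.2
    rw [← map_pow, ← map_pow, ← hxy, map_mul, map_mul, map_prod, map_prod,
      ← Finset.mul_prod_erase Finset.univ _ (Finset.mem_univ i)]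
    have h5 : v (algebraMap K (adjoin K (k' i : Set Ω)) (algebraMap k K c)) = 1 := by
      rw [← IsScalarTower.algebraMap_apply]
      exact hv.1 c hc
    have h6 : ∏ j ∈ Finset.univ.erase i, v (algebraMap K (adjoin K (k' i : Set Ω))
        (aeval x (P j) ^ e j)) = 1 := by
      apply Finset.prod_eq_one
      intro j hj
      rw [map_zpow₀, map_zpow₀, ← hPev i j, h4 j hj, one_zpow]
    rw [h5, h6, one_mul, mul_one, map_zpow₀, map_zpow₀, ← hPev i i, hh i, eval₂_mul, map_mul,
      h3.1, mul_one]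
  · rw [← map_pow, ← hxy, map_mul, map_prod, ← IsScalarTower.algebraMap_apply]
    congr 1
    apply Finset.prod_congr rfl
    intro i _
    rw [map_zpow₀, prod_conj_eval s (k' i) (f i) (P i) (hP i) x]

end

end Pool.Agent.Helper36
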