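import Mathlib
import Pool.Agent.Helper73.PsdRankOne

/-!
# Non-incidence matrices whose minors of size `n + 2` vanish in a commutative ring

`v : ι → E` are the (homogenised) vertices, `h k` the facet functionals, `rk v univ = n + 1`.
The zero-one matrix `N` with `N i k = 0` exactly when `h k (v i) = 0` has the unitriangular
minors given by flags; if all its minors of size `n + 2` vanish in a commutative ring `R`, then the
number of facets is at most `2 ^ n` when `2 ≠ 0` in `R` and at most `2 ^ (n + 1) - 1` when `R` is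
nontrivial.
-/

namespace Pool.Agent.Helper36.PsdField

open Finset Pool.Agent.Helper73.Psd

section flag

variable {ι κ : Type*} [Fintype ι] [DecidableEq ι] {E : Type*} [AddCommGroup E] [Module ℝ E]
  [FiniteDimensional ℝ E]

/-- A face of rank `m` carries a triangular system of `m` vertices and `m` facets. -/
theorem exists_flag (v : ι → E) (h : κ → Module.Dual ℝ E)
    (hpos : ∃ g0 : Module.Dual ℝ E, ∀ i, 0 < g0 (v i))
    (hfacet : ∀ g : Module.Dual ℝ E, (∀ i, 0 ≤ g (v i)) → rk v (zs v g univ) + 1 = rk v univ →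
      ∃ k, zs v (h k) univ = zs v g univ) :
    ∀ (m : ℕ) (T : Finset ι), IsFace v T → rk v T = m →
      ∃ (w : Fin m → ι) (b : Fin m → κ), (∀ s, w s ∈ T) ∧ (∀ s, h (b s) (v (w s)) ≠ 0) ∧
        ∀ s t, s < t → h (b t) (v (w s)) = 0 := by
  intro m
  induction m with
  | zero =>
    intro T _ _
    exact ⟨Fin.elim0, Fin.elim0, fun s => s.elim0, fun s => s.elim0, fun s => s.elim0⟩
  | succ m ih =>
    intro T hT hTm
    rcases T.eq_empty_or_nonempty with rfl | ⟨w0, hw0⟩
    · exfalso
      rw [rk, Finset.coe_empty, Set.image_empty, Submodule.span_empty, finrank_bot] at hTm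
      omega
    obtain ⟨g0, hg0⟩ := hpos
    obtain ⟨h', h1', _, h3', h4'⟩ := exists_facet_avoiding v T w0 hw0 _ g0
      (fun i _ => (hg0 i).le) (hg0 w0) rfl
    have hT'face : IsFace v (zs v h' T) := hT.trans h' h1'
    have hwT' : w0 ∉ zs v h' T := fun hcon => h3'.ne' (mem_zs.1 hcon).2
    obtain ⟨w', b', hw'T, hdiag, htri⟩ := ih (zs v h' T) hT'face (by omega)
    -- a facet containing `zs v h' T` but not `w0`
    obtain ⟨g', hg', hg'T⟩ := hT'face
    have hg'w : 0 < g' (v w0) := by
      refine lt_of_le_of_ne (hg' w0) fun heq => hwT' ?_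
      rw [hg'T]
      exact mem_zs.2 ⟨Finset.mem_univ _, heq.symm⟩
    obtain ⟨h'', h1'', h2'', h3'', h4''⟩ := exists_facet_avoiding v univ w0 (Finset.mem_univ _) _ g'
      (fun i _ => hg' i) hg'w rfl
    obtain ⟨k, hk⟩ := hfacet h'' (fun i => h1'' i (Finset.mem_univ _)) h4''
    have hkw : h k (v w0) ≠ 0 := by
      intro hcon
      have h5 : w0 ∈ zs v (h k) univ := mem_zs.2 ⟨Finset.mem_univ _, hcon⟩
      rw [hk] at h5
      exact h3''.ne' (mem_zs.1 h5).2
    have hkT : ∀ i ∈ zs v h' T, h k (v i) = 0 := by
      intro i hi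
      have h5 : i ∈ zs v (h k) univ := by
        rw [hk]
        apply h2''
        rw [← hg'T]
        exact hi
      exact (mem_zs.1 h5).2
    refine ⟨Fin.snoc w' w0, Fin.snoc b' k, ?_, ?_, ?_⟩
    · intro s
      induction s using Fin.lastCases with
      | last => rw [Fin.snoc_last]; exact hw0
      | cast s => rw [Fin.snoc_castSucc]; exact zs_subset v h' T (hw'T s)
    · intro s
      induction s using Fin.lastCases with
      | last => rw [Fin.snoc_last, Fin.snoc_last]; exact hkw
      | cast s => rw [Fin.snoc_castSucc, Fin.snoc_castSucc]; exact hdiag s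
    · intro s t hst
      induction t using Fin.lastCases with
      | last =>
        induction s using Fin.lastCases with
        | last => exact absurd hst (lt_irrefl _)
        | cast s =>
          rw [Fin.snoc_last, Fin.snoc_castSucc]
          exact hkT _ (hw'T s)
      | cast t =>
        induction s using Fin.lastCases with
        | last => exact absurd hst (not_lt.2 (Fin.le_last _))
        | cast s =>
          rw [Fin.snoc_castSucc, Fin.snoc_castSucc]
          exact htri s t (Fin.castSucc_lt_castSucc_iff.1 hst)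

end flag

section minors

variable {R : Type*} [CommRing R] {ι κ : Type*}

/-- All minors of size `m` of `M` vanish; index type `Fin a ⊕ Fin b` with `a + b = m`. -/
theorem det_sum_eq_zero (N : ι → κ → R) (a b : ℕ)
    (hmin : ∀ (r : Fin (a + b) → ι) (c : Fin (a + b) → κ),
      (Matrix.of fun s t => N (r s) (c t)).det = 0)
    (r : Fin a ⊕ Fin b → ι) (c : Fin a ⊕ Fin b → κ) :
    (Matrix.of fun s t => N (r s) (c t)).det = 0 := by
  have h1 := hmin (fun s => r (finSumFinEquiv.symm s)) (fun t => c (finSumFinEquiv.symm t))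
  rw [← Matrix.det_submatrix_equiv_self finSumFinEquiv] at h1
  rw [← h1]
  congr 1
  ext s t
  simp

/-- The determinant obtained by replacing the last column by the difference of two columns. -/
theorem det_diff_eq_zero (N : ι → κ → R) (a b : ℕ)
    (hmin : ∀ (r : Fin (a + b) → ι) (c : Fin (a + b) → κ),
      (Matrix.of fun s t => N (r s) (c t)).det = 0)
    (r : Fin a ⊕ Fin b → ι) (c : Fin a ⊕ Fin b → κ) (t0 : Fin a ⊕ Fin b) (j : κ) :
    ((Matrix.of fun s t => N (r s) (c t)).updateCol t0
      (fun s => N (r s) j - N (r s) (c t0))).det = 0 := by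
  classical
  have h1 := det_sum_eq_zero N a b hmin r c
  have h2 := det_sum_eq_zero N a b hmin r (Function.update c t0 j)
  have h3 : (Matrix.of fun s t => N (r s) (Function.update c t0 j t)) =
      (Matrix.of fun s t => N (r s) (c t)).updateCol t0 (fun s => N (r s) j) := by
    ext s t
    rw [Matrix.updateCol_apply, Matrix.of_apply]
    split_ifs with ht
    · rw [ht, Function.update_self]
    · rw [Function.update_of_ne ht, Matrix.of_apply]
  have h4 : (fun s => N (r s) j) = (fun s => N (r s) j - N (r s) (c t0)) +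
      (fun s => N (r s) (c t0)) := by
    funext s
    simp
  have h5 : (Matrix.of fun s t => N (r s) (c t)).updateCol t0 (fun s => N (r s) (c t0)) =
      (Matrix.of fun s t => N (r s) (c t)) := by
    ext s t
    rw [Matrix.updateCol_apply]
    split_ifs with ht
    · rw [ht, Matrix.of_apply]
    · rfl
  rw [h3, h4, Matrix.det_updateCol_add, h5, h1, add_zero] at h2
  exact h2

/-- The determinant of a unitriangular flag minor. -/
theorem det_flag {m : ℕ} (N : ι → κ → R) (w : Fin m → ι) (b : Fin m → κ)
    (hdiag : ∀ s, N (w s) (b s) = 1) (htri : ∀ s t, s < t → N (w s) (b t) = 0) :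
    (Matrix.of fun s t => N (w s) (b t)).det = 1 := by
  rw [Matrix.det_of_isLowerTriangular]
  · simp [hdiag]
  · intro s t hst
    exact htri s t hst

end minors

section bounds

variable {ι κ : Type*} [Fintype ι] [Fintype κ] [DecidableEq ι] {n : ℕ} {E : Type*}
  [AddCommGroup E] [Module ℝ E] [FiniteDimensional ℝ E]

/-- **Bound `2 ^ n`** when the minors of size `n + 2` of the non-incidence matrix vanish in a
commutative ring in which `2 ≠ 0`. -/
theorem card_le_two_pow_of_minors {R : Type*} [CommRing R] (h2 : (2 : R) ≠ 0)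
    (v : ι → E) (h : κ → Module.Dual ℝ E) (hrank : rk v univ = n + 1)
    (hpos : ∃ g0 : Module.Dual ℝ E, ∀ i, 0 < g0 (v i))
    (hk : ∀ k, (∀ i, 0 ≤ h k (v i)) ∧ rk v (zs v (h k) univ) + 1 = rk v univ)
    (hfacet : ∀ g : Module.Dual ℝ E, (∀ i, 0 ≤ g (v i)) → rk v (zs v g univ) + 1 = rk v univ →
      ∃ k, zs v (h k) univ = zs v g univ)
    (hinj : ∀ k l, zs v (h k) univ = zs v (h l) univ → k = l)
    (N : ι → κ → R) (hN : ∀ i k, (N i k = 0 ∧ h k (v i) = 0) ∨ (N i k = 1 ∧ h k (v i) ≠ 0))
    (hmin : ∀ (r : Fin (n + 2) → ι) (c : Fin (n + 2) → κ),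
      (Matrix.of fun s t => N (r s) (c t)).det = 0) :
    Fintype.card κ ≤ 2 ^ n := by
  classical
  rcases isEmpty_or_nonempty κ with hκ | ⟨⟨k0⟩⟩
  · rw [Fintype.card_eq_zero]; exact Nat.zero_le _
  have h10 : (1 : R) ≠ 0 := by
    intro hcon
    apply h2
    rw [← one_add_one_eq_two, hcon, add_zero]
  have hN0 : ∀ i k, N i k = 0 ↔ h k (v i) = 0 := by
    intro i k
    rcases hN i k with ⟨h3, h4⟩ | ⟨h3, h4⟩
    · simp [h3, h4]
    · simp [h3, h4, h10]
  have hN1 : ∀ i k, h k (v i) ≠ 0 → N i k = 1 := by
    intro i k hik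
    rcases hN i k with ⟨_, h4⟩ | ⟨h3, _⟩
    · exact absurd h4 hik
    · exact h3
  have hN01 : ∀ i k, N i k = 0 ∨ N i k = 1 := by
    intro i k
    rcases hN i k with ⟨h3, _⟩ | ⟨h3, _⟩
    · exact Or.inl h3
    · exact Or.inr h3
  -- the flag of the facet `k0`
  let T0 : Finset ι := zs v (h k0) univ
  have hT0 : rk v T0 = n := by
    have h3 := (hk k0).2
    rw [hrank] at h3
    exact Nat.succ_injective h3
  obtain ⟨w, b, hwT, hdiag, htri⟩ := exists_flag v h hpos hfacet n T0 ⟨h k0, (hk k0).1, rfl⟩ hT0
  have hflag : (Matrix.of fun s t => N (w s) (b t)).det = 1 :=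
    det_flag N w b (fun s => hN1 _ _ (hdiag s)) (fun s t hst => (hN0 _ _).2 (htri s t hst))
  obtain ⟨i0, hi0⟩ : ∃ i0, h k0 (v i0) ≠ 0 := by
    by_contra hcon
    push Not at hcon
    have : zs v (h k0) univ = univ := by
      ext i
      simp [mem_zs, hcon]
    have h5 := (hk k0).2
    rw [this] at h5
    omega
  have hNk0 : N i0 k0 = 1 := hN1 _ _ hi0
  have hw0 : ∀ s, N (w s) k0 = 0 := fun s => (hN0 _ _).2 (mem_zs.1 (hwT s)).2
  -- nested facets are equal
  have hnest : ∀ k l, (∀ i, N i k = 0 → N i l = 0) → k = l := by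
    intro k l hkl
    obtain ⟨c, hc⟩ := exists_mul_of_facet v (h k) (h l) (hk k).2 (fun i hi => by
      rw [← hN0]; exact hkl i (by rw [hN0]; exact hi))
    have hc0 : c ≠ 0 := by
      rintro rfl
      have : zs v (h l) univ = univ := by
        ext i
        simp [mem_zs, hc]
      have h5 := (hk l).2
      rw [this] at h5
      omega
    apply hinj
    ext i
    rw [mem_zs, mem_zs, hc]
    simp [hc0]
  -- the key relation
  have hkey : ∀ j l, (∀ s, N (w s) j = N (w s) l) → ∀ i,
      N i j - N i l = N i k0 * (N i0 j - N i0 l) := by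
    intro j l hjl i
    have h3 := det_diff_eq_zero N n 2 hmin (Sum.elim w ![i0, i]) (Sum.elim b ![k0, l])
      (Sum.inr 1) j
    have h4 : (Matrix.of fun s t => N (Sum.elim w ![i0, i] s) (Sum.elim b ![k0, l] t)).updateCol
        (Sum.inr 1) (fun s => N (Sum.elim w ![i0, i] s) j -
          N (Sum.elim w ![i0, i] s) (Sum.elim b ![k0, l] (Sum.inr 1))) =
        Matrix.fromBlocks (Matrix.of fun s t => N (w s) (b t)) 0
          (Matrix.of fun (s : Fin 2) t => N (![i0, i] s) (b t))
          !![N i0 k0, N i0 j - N i0 l; N i k0, N i j - N i l] := by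
      ext s t
      rcases s with s | s
      · rcases t with t | t
        · simp
        · fin_cases t
          · simp [hw0]
          · simp [hjl]
      · rcases t with t | t
        · simp
        · fin_cases t <;> fin_cases s <;> simp
    rw [h4, Matrix.det_fromBlocks_zero₁₂, hflag, one_mul, Matrix.det_fin_two_of, hNk0] at h3
    linear_combination h3
  -- restriction to the flag
  let f : κ → Fin n → Bool := fun k s => decide (N (w s) k = 1)
  have hf : Function.Injective f := by
    intro j l hjl
    have h3 : ∀ s, N (w s) j = N (w s) l := by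
      intro s
      have h5 := congrFun hjl s
      simp only [f, decide_eq_decide] at h5
      rcases hN01 (w s) j with h6 | h6 <;> rcases hN01 (w s) l with h7 | h7
      · rw [h6, h7]
      · exact absurd (h6.symm.trans (h5.2 h7)) (Ne.symm h10)
      · exact absurd (h7.symm.trans (h5.1 h6)) (Ne.symm h10)
      · rw [h6, h7]
    have h4 := hkey j l h3
    have hcase : ∀ j l, (∀ i, N i j - N i l = N i k0 * (N i0 j - N i0 l)) →
        N i0 j - N i0 l = 1 → j = l := by
      intro j l h4 h5
      refine hnest j l fun i hi => ?_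
      have h6 := h4 i
      rw [h5, hi, mul_one, zero_sub] at h6
      rcases hN01 i l with h7 | h7
      · exact h7
      · exfalso
        rw [h7] at h6
        rcases hN01 i k0 with h8 | h8
        · rw [h8] at h6
          exact h10 (neg_eq_zero.1 h6)
        · rw [h8] at h6
          apply h2
          linear_combination -h6
    have hcase0 : N i0 j - N i0 l = 0 → j = l := by
      intro h5
      refine hnest j l fun i hi => ?_
      have h6 := h4 i
      rw [h5, mul_zero, hi, zero_sub] at h6
      exact neg_eq_zero.1 h6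
    rcases hN01 i0 j with h8 | h8 <;> rcases hN01 i0 l with h9 | h9
    · exact hcase0 (by rw [h8, h9, sub_self])
    · refine (hcase l j (fun i => ?_) (by rw [h8, h9, sub_zero])).symm
      linear_combination -(h4 i)
    · exact hcase j l h4 (by rw [h8, h9, sub_zero])
    · exact hcase0 (by rw [h8, h9, sub_self])
  have h9 := Fintype.card_le_of_injective f hf
  rwa [Fintype.card_fun, Fintype.card_bool, Fintype.card_fin] at h9

/-- **Bound `2 ^ (n + 1) - 1`** when the minors of size `n + 2` of the non-incidence matrix vanish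
in a nontrivial commutative ring. -/
theorem card_lt_two_pow_succ_of_minors {R : Type*} [CommRing R] [Nontrivial R]
    (v : ι → E) (h : κ → Module.Dual ℝ E) (hrank : rk v univ = n + 1)
    (hpos : ∃ g0 : Module.Dual ℝ E, ∀ i, 0 < g0 (v i))
    (hk : ∀ k, (∀ i, 0 ≤ h k (v i)) ∧ rk v (zs v (h k) univ) + 1 = rk v univ)
    (hfacet : ∀ g : Module.Dual ℝ E, (∀ i, 0 ≤ g (v i)) → rk v (zs v g univ) + 1 = rk v univ →
      ∃ k, zs v (h k) univ = zs v g univ)
    (hinj : ∀ k l, zs v (h k) univ = zs v (h l) univ → k = l)
    (N : ι → κ → R) (hN : ∀ i k, (N i k = 0 ∧ h k (v i) = 0) ∨ (N i k = 1 ∧ h k (v i) ≠ 0))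
    (hmin : ∀ (r : Fin (n + 2) → ι) (c : Fin (n + 2) → κ),
      (Matrix.of fun s t => N (r s) (c t)).det = 0) :
    Fintype.card κ + 1 ≤ 2 ^ (n + 1) := by
  classical
  have h10 : (1 : R) ≠ 0 := one_ne_zero
  have hN0 : ∀ i k, N i k = 0 ↔ h k (v i) = 0 := by
    intro i k
    rcases hN i k with ⟨h3, h4⟩ | ⟨h3, h4⟩
    · simp [h3, h4]
    · simp [h3, h4]
  have hN1 : ∀ i k, h k (v i) ≠ 0 → N i k = 1 := by
    intro i k hik
    rcases hN i k with ⟨_, h4⟩ | ⟨h3, _⟩
    · exact absurd h4 hik
    · exact h3
  have hN01 : ∀ i k, N i k = 0 ∨ N i k = 1 := by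
    intro i k
    rcases hN i k with ⟨h3, _⟩ | ⟨h3, _⟩
    · exact Or.inl h3
    · exact Or.inr h3
  obtain ⟨w, b, _, hdiag, htri⟩ := exists_flag v h hpos hfacet (n + 1) univ (isFace_univ v) hrank
  have hflag : (Matrix.of fun s t => N (w s) (b t)).det = 1 :=
    det_flag N w b (fun s => hN1 _ _ (hdiag s)) (fun s t hst => (hN0 _ _).2 (htri s t hst))
  -- a column vanishing on the flag vanishes
  have hzero : ∀ j, (∀ s, N (w s) j = 0) → ∀ i, N i j = 0 := by
    intro j hj i
    have h3 := det_sum_eq_zero N (n + 1) 1 hmin (Sum.elim w ![i]) (Sum.elim b ![j])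
    have h4 : (Matrix.of fun s t => N (Sum.elim w ![i] s) (Sum.elim b ![j] t)) =
        Matrix.fromBlocks (Matrix.of fun s t => N (w s) (b t)) 0
          (Matrix.of fun (s : Fin 1) t => N (![i] s) (b t)) !![N i j] := by
      ext s t
      rcases s with s | s
      · rcases t with t | t
        · simp
        · fin_cases t
          simp [hj]
      · rcases t with t | t
        · simp
        · fin_cases t
          fin_cases s
          simp
    rw [h4, Matrix.det_fromBlocks_zero₁₂, hflag, one_mul, Matrix.det_fin_one_of] at h3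
    exact h3
  have hkey : ∀ j l, (∀ s, N (w s) j = N (w s) l) → ∀ i, N i j = N i l := by
    intro j l hjl i
    have h3 := det_diff_eq_zero N (n + 1) 1 hmin (Sum.elim w ![i]) (Sum.elim b ![l])
      (Sum.inr 0) j
    have h4 : (Matrix.of fun s t => N (Sum.elim w ![i] s) (Sum.elim b ![l] t)).updateCol
        (Sum.inr 0) (fun s => N (Sum.elim w ![i] s) j -
          N (Sum.elim w ![i] s) (Sum.elim b ![l] (Sum.inr 0))) =
        Matrix.fromBlocks (Matrix.of fun s t => N (w s) (b t)) 0
          (Matrix.of fun (s : Fin 1) t => N (![i] s) (b t)) !![N i j - N i l] := by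
      ext s t
      rcases s with s | s
      · rcases t with t | t
        · simp
        · fin_cases t
          simp [hjl]
      · rcases t with t | t
        · simp
        · fin_cases t
          fin_cases s
          simp
    rw [h4, Matrix.det_fromBlocks_zero₁₂, hflag, one_mul, Matrix.det_fin_one_of] at h3
    exact sub_eq_zero.1 h3
  let f : Option κ → Fin (n + 1) → Bool := fun o s =>
    o.elim false (fun k => decide (N (w s) k = 1))
  have hf : Function.Injective f := by
    have hne : ∀ j : κ, f (some j) ≠ f none := by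
      intro j hj
      have h3 : ∀ s, N (w s) j = 0 := by
        intro s
        have h5 := congrFun hj s
        simp only [f, Option.elim_some, Option.elim_none, decide_eq_false_iff_not] at h5
        rcases hN01 (w s) j with h6 | h6
        · exact h6
        · exact absurd h6 h5
      have h4 := hzero j h3
      have : zs v (h j) univ = univ := by
        ext i
        simp [mem_zs, (hN0 i j).1 (h4 i)]
      have h5 := (hk j).2
      rw [this] at h5
      omega
    intro o1 o2 ho
    rcases o1 with _ | j <;> rcases o2 with _ | l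
    · rfl
    · exact absurd ho.symm (hne l)
    · exact absurd ho (hne j)
    · have h3 : ∀ s, N (w s) j = N (w s) l := by
        intro s
        have h5 := congrFun ho s
        simp only [f, Option.elim_some, decide_eq_decide] at h5
        rcases hN01 (w s) j with h6 | h6 <;> rcases hN01 (w s) l with h7 | h7
        · rw [h6, h7]
        · exact absurd (h6.symm.trans (h5.2 h7)) (Ne.symm h10)
        · exact absurd (h7.symm.trans (h5.1 h6)) (Ne.symm h10)
        · rw [h6, h7]
      have h4 := hkey j l h3
      congr 1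
      apply hinj
      ext i
      rw [mem_zs, mem_zs, ← hN0, ← hN0, h4]
  have h9 := Fintype.card_le_of_injective f hf
  rwa [Fintype.card_fun, Fintype.card_bool, Fintype.card_fin, Fintype.card_option] at h9

end bounds

section rank

/-- If the columns span a space of dimension at most `m`, the minors of size `m + 1` vanish. -/
theorem det_eq_zero_of_finrank_span {K : Type*} [Field K] {ι κ : Type*} [Finite ι]
    (N : ι → κ → K) (m : ℕ)
    (hm : Module.finrank K (Submodule.span K (Set.range fun k => fun i => N i k)) ≤ m)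
    (r : Fin (m + 1) → ι) (c : Fin (m + 1) → κ) :
    (Matrix.of fun s t => N (r s) (c t)).det = 0 := by
  classical
  let W : Submodule K (ι → K) := Submodule.span K (Set.range fun k => fun i => N i k)
  let x : Fin (m + 1) → W := fun t => ⟨fun i => N i (c t), Submodule.subset_span ⟨c t, rfl⟩⟩
  have h1 : Module.finrank K W < Fintype.card (Fin (m + 1)) := by
    rw [Fintype.card_fin]
    exact Nat.lt_succ_of_le hm
  have hdep : ¬ LinearIndependent K x := by
    intro hli
    have h2 := hli.fintype_card_le_finrank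
    omega
  obtain ⟨g, hg, t0, ht0⟩ := Fintype.not_linearIndependent_iff.1 hdep
  rw [← Matrix.exists_mulVec_eq_zero_iff]
  refine ⟨g, fun hcon => ht0 (congrFun hcon t0), ?_⟩
  funext s
  have h3 := congrFun (congrArg Subtype.val hg) (r s)
  rw [Submodule.coe_sum, Finset.sum_apply] at h3
  rw [Matrix.mulVec, dotProduct, Pi.zero_apply]
  rw [show ((0 : W) : ι → K) (r s) = 0 from rfl] at h3
  rw [← h3]
  refine Finset.sum_congr rfl fun t _ => ?_
  rw [Matrix.of_apply, mul_comm]
  rfl

/-- The slack minors of size `dim E + 1` vanish. -/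
theorem det_pairing_eq_zero {E : Type*} [AddCommGroup E] [Module ℝ E] [FiniteDimensional ℝ E]
    (m : ℕ) (hE : Module.finrank ℝ E = m) (x : Fin (m + 1) → E)
    (y : Fin (m + 1) → Module.Dual ℝ E) :
    (Matrix.of fun s t => y t (x s)).det = 0 := by
  have hdep : ¬ LinearIndependent ℝ x := by
    intro hli
    have h2 := hli.fintype_card_le_finrank
    rw [Fintype.card_fin] at h2
    omega
  obtain ⟨g, hg, s0, hs0⟩ := Fintype.not_linearIndependent_iff.1 hdep
  rw [← Matrix.exists_vecMul_eq_zero_iff]
  refine ⟨g, fun hcon => hs0 (congrFun hcon s0), ?_⟩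
  funext t
  rw [Matrix.vecMul, dotProduct, Pi.zero_apply]
  have h3 := congrArg (y t) hg
  rw [map_sum, map_zero] at h3
  rw [← h3]
  refine Finset.sum_congr rfl fun s _ => ?_
  rw [Matrix.of_apply, map_smul, smul_eq_mul]

/-- Transfer of the vanishing of a minor from the slack matrix to the non-incidence matrix. -/
theorem det_map_eq_zero {m : ℕ} {O : Subring ℝ} {R : Type*} [CommRing R] (φ : O →+* R)
    (S : Matrix (Fin m) (Fin m) ℝ) (hS : S.det = 0) (a b : Fin m → ℝ) (ha : ∀ s, a s ≠ 0)
    (hb : ∀ t, b t ≠ 0) (A : Matrix (Fin m) (Fin m) O)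
    (hSA : ∀ s t, S s t = a s * b t * (A s t : ℝ)) (N : Matrix (Fin m) (Fin m) R)
    (hN : ∀ s t, N s t = φ (A s t)) : N.det = 0 := by
  have h1 : S = Matrix.diagonal a * (O.subtype.mapMatrix A) * Matrix.diagonal b := by
    ext s t
    rw [Matrix.mul_diagonal, Matrix.diagonal_mul, hSA]
    simp
    ring
  rw [h1, Matrix.det_mul, Matrix.det_mul, Matrix.det_diagonal, Matrix.det_diagonal] at hS
  have h2 : (O.subtype.mapMatrix A).det = 0 := by
    rcases mul_eq_zero.1 hS with h3 | h3
    · rcases mul_eq_zero.1 h3 with h4 | h4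
      · exact absurd h4 (Finset.prod_ne_zero_iff.2 fun s _ => ha s)
      · exact h4
    · exact absurd h3 (Finset.prod_ne_zero_iff.2 fun s _ => hb s)
  rw [← RingHom.map_det] at h2
  have h3 : A.det = 0 := by
    apply Subtype.ext
    exact h2
  have h4 : N = φ.mapMatrix A := by
    ext s t
    rw [hN]
    rfl
  rw [h4, ← RingHom.map_det, h3, map_zero]

end rank

end Pool.Agent.Helper36.PsdField
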